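import Pool.Agent.Helper11W.Stm

/-!
# Moments of the exponential sum over k-th powers: the statement
-/

set_option autoImplicit false

namespace Pool.Agent.Helper11W

open Finset

/-- A moment of the sum over `x ≤ K P` at the points `j / (2h+1)`, saving a factor `P^(1/4)` over `P^(v+2)`. -/
def EnergyStm : Prop :=
  ∀ k K v : ℕ, v ≤ 2 → v + 1 ≤ k → 1 ≤ K → ∃ C : ℝ, 0 < C ∧ ∀ P h : ℕ, 1 ≤ P → 2 * (K * P) ^ k ≤ h →
    (1 / (2 * (h : ℝ) + 1) * ∑ j ∈ Icc (-(h : ℤ)) h,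
      ‖∑ x ∈ Icc 1 (K * P), e (j / (2 * (h : ℝ) + 1) * (x : ℝ) ^ k)‖ ^ (2 * (v + 1))) ^ 4 * P ≤
        C * (P : ℝ) ^ (4 * (v + 2))

end Pool.Agent.Helper11W
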