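import Pool.Agent.Helper11W.Det
import Pool.Agent.Helper11W.Stm2

/-!
# The integrals of `Λ` and `Ξ` over the coefficients
-/

set_option autoImplicit false

namespace Pool.Agent.Helper11W

open MeasureTheory Finset

/-- Lebesgue measure on the box `(0, B]^m` -/
noncomputable def mu (m B : ℕ) : Measure (Fin m → ℝ) :=
  Measure.pi (fun _ => volume.restrict (Set.Ioc (0 : ℝ) B))

instance (m B : ℕ) : IsFiniteMeasure (mu m B) := by unfold mu; infer_instance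

/-- `C_Q` -/
noncomputable def CQ (k B : ℕ) : ℝ := 3 * (4 * (KX k B : ℝ) ^ k + KX k B)

theorem KX_pos (k B : ℕ) (hk : 2 ≤ k) (hB : 1 ≤ B) : 1 ≤ KX k B := by
  have hk0 : 0 < k := by omega
  have hB0 : 0 < B := by omega
  exact Nat.succ_le_of_lt (by unfold KX KK; positivity)

theorem CQ_ge (k B : ℕ) (hk : 2 ≤ k) (hB : 1 ≤ B) : 1 ≤ CQ k B := by
  have h1 : (1 : ℝ) ≤ KX k B := by exact_mod_cast KX_pos k B hk hB
  have h2 : (0 : ℝ) ≤ (KX k B : ℝ) ^ k := by positivity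
  unfold CQ; linarith

theorem QQ_le (k B P : ℕ) (hk : 2 ≤ k) (hB : 1 ≤ B) (hP : 1 ≤ P) : QQ k B P ≤ CQ k B * (P : ℝ) ^ k := by
  have h1 : (1 : ℝ) ≤ KX k B := by exact_mod_cast KX_pos k B hk hB
  have h2 : (1 : ℝ) ≤ (P : ℝ) ^ k := one_le_pow₀ (by exact_mod_cast hP)
  have h3 : (0 : ℝ) ≤ (KX k B : ℝ) ^ k := by positivity
  unfold QQ CQ hh
  push_cast
  nlinarith [mul_nonneg h3 (by positivity : (0 : ℝ) ≤ (P : ℝ) ^ k)]

theorem le_QQ (k B P : ℕ) (hk : 2 ≤ k) (hB : 1 ≤ B) : (P : ℝ) ^ k ≤ QQ k B P := by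
  have h1 : (1 : ℝ) ≤ KX k B := by exact_mod_cast KX_pos k B hk hB
  have h2 : (0 : ℝ) ≤ (P : ℝ) ^ k := by positivity
  have h3 : (0 : ℝ) ≤ (KX k B : ℝ) ^ k := by positivity
  unfold QQ hh
  push_cast
  nlinarith [mul_nonneg h3 h2]

/-- mean square of `S` at the points `j / Q` -/
theorem S_at (k B : ℕ) (hk : 2 ≤ k) (hB : 1 ≤ B) (hS : SStm) : ∃ CS : ℝ, 1 ≤ CS ∧ ∀ P : ℕ, 1 ≤ P →
    ∀ j : ℤ, j ∈ Icc (-(hh k B P : ℤ)) (hh k B P) → j ≠ 0 →
    ∫ a in Set.Ioc (0 : ℝ) B, ‖S k P (j / QQ k B P) a‖ ^ 2 ≤ CS * P * (1 + CQ k B * P / |(j : ℝ)|) := by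
  obtain ⟨C, hC, h⟩ := hS k B (by omega) (by exact_mod_cast hB)
  refine ⟨max 1 C, le_max_left _ _, fun P hP j hj hj0 => ?_⟩
  have hQp := QQ_pos k B P
  have hPR : (1 : ℝ) ≤ P := by exact_mod_cast hP
  have hjR : (j : ℝ) ≠ 0 := by exact_mod_cast hj0
  have hja : 0 < |(j : ℝ)| := abs_pos.mpr hjR
  have ht : |(j : ℝ) / QQ k B P| = |(j : ℝ)| / QQ k B P := by rw [abs_div, abs_of_pos hQp]
  have hjle : |(j : ℝ)| ≤ hh k B P := by
    rw [mem_Icc] at hj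
    have : |j| ≤ (hh k B P : ℤ) := abs_le.mpr hj
    exact_mod_cast this
  have ht2 : |(j : ℝ) / QQ k B P| ≤ 1 / 2 := by
    rw [ht, div_le_iff₀ hQp]
    unfold QQ
    linarith
  refine (h P hP _ (div_ne_zero hjR hQp.ne') ht2).trans ?_
  rw [ht]
  have hPk : (0 : ℝ) < (P : ℝ) ^ (k - 1) := by positivity
  have h1 : 1 / (|(j : ℝ)| / QQ k B P * (P : ℝ) ^ (k - 1)) ≤ CQ k B * P / |(j : ℝ)| := by
    rw [div_le_div_iff₀ (by positivity) hja]
    have h2 := QQ_le k B P hk hB hP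
    have h3 : (P : ℝ) ^ k = P * (P : ℝ) ^ (k - 1) := by
      rw [← pow_succ']; congr 1; omega
    rw [h3] at h2
    have h4 : |(j : ℝ)| / QQ k B P * (P : ℝ) ^ (k - 1) * QQ k B P = |(j : ℝ)| * (P : ℝ) ^ (k - 1) := by
      field_simp
    have h5 : |(j : ℝ)| * QQ k B P ≤ |(j : ℝ)| * (CQ k B * (P * (P : ℝ) ^ (k - 1))) :=
      mul_le_mul_of_nonneg_left h2 hja.le
    have h6 : (1 * |(j : ℝ)|) * QQ k B P ≤ (CQ k B * P * (|(j : ℝ)| / QQ k B P * (P : ℝ) ^ (k - 1))) * QQ k B P := by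
      calc (1 * |(j : ℝ)|) * QQ k B P = |(j : ℝ)| * QQ k B P := by ring
        _ ≤ |(j : ℝ)| * (CQ k B * (P * (P : ℝ) ^ (k - 1))) := h5
        _ = CQ k B * P * (|(j : ℝ)| / QQ k B P * (P : ℝ) ^ (k - 1) * QQ k B P) := by rw [h4]; ring
        _ = _ := by ring
    exact le_of_mul_le_mul_right h6 hQp
  have hCQ : (0 : ℝ) < CQ k B := lt_of_lt_of_le one_pos (CQ_ge k B hk hB)
  calc C * P * (1 + 1 / (|(j : ℝ)| / QQ k B P * (P : ℝ) ^ (k - 1))) ≤ C * P * (1 + CQ k B * P / |(j : ℝ)|) := by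
        refine mul_le_mul_of_nonneg_left (by linarith) (by positivity)
    _ ≤ max 1 C * P * (1 + CQ k B * P / |(j : ℝ)|) := by
        refine mul_le_mul_of_nonneg_right (mul_le_mul_of_nonneg_right (le_max_right _ _) (by positivity)) ?_
        positivity

theorem integrable_prodS (k P m B : ℕ) (t : ℝ) :
    Integrable (fun α : Fin m → ℝ => ∏ i, ‖S k P t (α i)‖) (mu m B) :=
  Integrable.fintype_prod (f := fun _ a => ‖S k P t a‖) (fun _ => integrable_S k P B t)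

theorem integrable_prodS2 (k P m B : ℕ) (t : ℝ) :
    Integrable (fun α : Fin m → ℝ => ∏ i, ‖S k P t (α i)‖ ^ 2) (mu m B) :=
  Integrable.fintype_prod (f := fun _ a => ‖S k P t a‖ ^ 2) (fun _ => integrable_S2 k P B t)

theorem int_prodS (k P m B : ℕ) (t : ℝ) :
    ∫ α, ∏ i, ‖S k P t (α i)‖ ∂(mu m B) = (∫ a in Set.Ioc (0 : ℝ) B, ‖S k P t a‖) ^ m := by
  unfold mu
  rw [integral_fintype_prod_eq_pow (fun a => ‖S k P t a‖), Fintype.card_fin]

theorem int_prodS2 (k P m B : ℕ) (t : ℝ) :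
    ∫ α, ∏ i, ‖S k P t (α i)‖ ^ 2 ∂(mu m B) = (∫ a in Set.Ioc (0 : ℝ) B, ‖S k P t a‖ ^ 2) ^ m := by
  unfold mu
  rw [integral_fintype_prod_eq_pow (fun a => ‖S k P t a‖ ^ 2), Fintype.card_fin]

theorem sum_inv_sqrt (J : ℕ) : ∑ n ∈ Icc 1 J, 1 / Real.sqrt n ≤ 2 * Real.sqrt J := by
  induction J with
  | zero => simp
  | succ J ih =>
    rw [sum_Icc_succ_top (by omega)]
    have h1 : 0 ≤ Real.sqrt J := Real.sqrt_nonneg _
    have h2 : 0 < Real.sqrt ((J + 1 : ℕ) : ℝ) := Real.sqrt_pos.mpr (by positivity)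
    have h3 : Real.sqrt ((J + 1 : ℕ) : ℝ) ^ 2 = J + 1 := by rw [Real.sq_sqrt (by positivity)]; push_cast; ring
    have h4 : Real.sqrt (J : ℝ) ^ 2 = J := Real.sq_sqrt (by positivity)
    have h5 : Real.sqrt J ≤ Real.sqrt ((J + 1 : ℕ) : ℝ) := Real.sqrt_le_sqrt (by push_cast; linarith)
    set s := Real.sqrt ((J + 1 : ℕ) : ℝ) with hs
    set r := Real.sqrt (J : ℝ) with hr
    have h6 : 1 / s ≤ 2 * (s - r) := by
      rw [div_le_iff₀ h2]
      nlinarith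
    linarith

theorem sum_inv_le (h J : ℕ) :
    ∑ j ∈ (Icc (-(h : ℤ)) h).filter (fun j : ℤ => |(j : ℝ)| < J ∧ j ≠ 0), 1 / Real.sqrt |(j : ℝ)| ≤
      4 * Real.sqrt J := by
  have h1 : ∑ j ∈ (Icc (-(h : ℤ)) h).filter (fun j : ℤ => |(j : ℝ)| < J ∧ j ≠ 0), 1 / Real.sqrt |(j : ℝ)| ≤
      ∑ j ∈ (Icc 1 J).image (fun n : ℕ => (n : ℤ)) ∪ (Icc 1 J).image (fun n : ℕ => -(n : ℤ)),
        1 / Real.sqrt |(j : ℝ)| := by
    refine sum_le_sum_of_subset_of_nonneg ?_ (fun j _ _ => by positivity)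
    intro j hj
    rw [mem_filter] at hj
    obtain ⟨-, hj1, hj2⟩ := hj
    have hj3 : |j| < J := by exact_mod_cast hj1
    rw [abs_lt] at hj3
    rw [mem_union, mem_image, mem_image]
    rcases lt_or_gt_of_ne hj2 with hneg | hpos
    · right
      refine ⟨j.natAbs, ?_, by omega⟩
      rw [mem_Icc]; omega
    · left
      refine ⟨j.natAbs, ?_, by omega⟩
      rw [mem_Icc]; omega
  have h2 : ∑ j ∈ (Icc 1 J).image (fun n : ℕ => (n : ℤ)) ∪ (Icc 1 J).image (fun n : ℕ => -(n : ℤ)),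
        1 / Real.sqrt |(j : ℝ)| ≤
      ∑ j ∈ (Icc 1 J).image (fun n : ℕ => (n : ℤ)), 1 / Real.sqrt |(j : ℝ)| +
      ∑ j ∈ (Icc 1 J).image (fun n : ℕ => -(n : ℤ)), 1 / Real.sqrt |(j : ℝ)| := by
    rw [← sum_union_inter]
    have : 0 ≤ ∑ j ∈ (Icc 1 J).image (fun n : ℕ => (n : ℤ)) ∩ (Icc 1 J).image (fun n : ℕ => -(n : ℤ)),
        1 / Real.sqrt |(j : ℝ)| := sum_nonneg fun j _ => by positivity
    linarith
  have h3 : ∑ j ∈ (Icc 1 J).image (fun n : ℕ => (n : ℤ)), 1 / Real.sqrt |(j : ℝ)| =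
      ∑ n ∈ Icc 1 J, 1 / Real.sqrt (n : ℝ) := by
    rw [sum_image (fun a _ b _ hab => by exact_mod_cast hab)]
    refine sum_congr rfl fun n _ => ?_
    rw [Int.cast_natCast, abs_of_nonneg (by positivity)]
  have h4 : ∑ j ∈ (Icc 1 J).image (fun n : ℕ => -(n : ℤ)), 1 / Real.sqrt |(j : ℝ)| =
      ∑ n ∈ Icc 1 J, 1 / Real.sqrt (n : ℝ) := by
    rw [sum_image (fun a _ b _ hab => by simpa using hab)]
    refine sum_congr rfl fun n _ => ?_
    rw [Int.cast_neg, Int.cast_natCast, abs_neg, abs_of_nonneg (by positivity)]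
  have h5 := sum_inv_sqrt J
  linarith

/-- low frequencies -/
theorem int_Lam (k v m B : ℕ) (hk : 2 ≤ k) (hm : m + v = 2 * k) (hm3 : 3 ≤ m) (hB : 1 ≤ B) (hS : SStm) :
    ∃ C1 : ℝ, 0 < C1 ∧ ∀ p : ℕ, 1 ≤ p →
    Integrable (Lam k v m B (p ^ LL k) (p ^ (LL k - 1))) (mu m B) ∧
    ∫ α, Lam k v m B (p ^ LL k) (p ^ (LL k - 1)) α ∂(mu m B) ≤
      C1 * ((p ^ LL k : ℕ) : ℝ) ^ (k + 1) / (p : ℝ) ^ 2 := by
  obtain ⟨CS, hCS, hSa⟩ := S_at k B hk hB hS
  have hCQ := CQ_ge k B hk hB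
  have hBR : (1 : ℝ) ≤ B := by exact_mod_cast hB
  set D : ℝ := 2 * B * CS * CQ k B with hD
  have hD0 : 0 < D := by positivity
  have hDs : 0 < Real.sqrt D := Real.sqrt_pos.mpr hD0
  have hKX : (1 : ℝ) ≤ KX k B := by exact_mod_cast KX_pos k B hk hB
  refine ⟨(KX k B : ℝ) ^ (v + 1) * Real.sqrt D ^ m * 4, by positivity, fun p hp => ?_⟩
  set P := p ^ LL k with hP
  set J := p ^ (LL k - 1) with hJ
  have hLL : 8 ≤ LL k := by unfold LL; omega
  have hP1 : 1 ≤ P := Nat.one_le_pow _ _ hp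
  have hJ1 : 1 ≤ J := Nat.one_le_pow _ _ hp
  have hPJ : P = p * J := by rw [hP, hJ, ← pow_succ', Nat.sub_add_cancel (by omega : 1 ≤ LL k)]
  have hJP : J ≤ P := by rw [hPJ]; exact Nat.le_mul_of_pos_left _ hp
  have hPR : (1 : ℝ) ≤ P := by exact_mod_cast hP1
  have hJR : (1 : ℝ) ≤ J := by exact_mod_cast hJ1
  have hJPR : (J : ℝ) ≤ P := by exact_mod_cast hJP
  have hQp := QQ_pos k B P
  have hint : Integrable (Lam k v m B P J) (mu m B) := by
    unfold Lam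
    refine Integrable.const_mul (integrable_finsetSum _ fun j _ => ?_) _
    exact ((integrable_prodS k P m B _).const_mul _).const_mul _
  refine ⟨hint, ?_⟩
  have h1 : ∫ α, Lam k v m B P J α ∂(mu m B) = 1 / QQ k B P *
      ∑ j ∈ (Icc (-(hh k B P : ℤ)) (hh k B P)).filter (fun j : ℤ => |(j : ℝ)| < J),
        |(j : ℝ)| / J * (((KX k B * P : ℕ) : ℝ) ^ (v + 1) *
          (∫ a in Set.Ioc (0 : ℝ) B, ‖S k P (j / QQ k B P) a‖) ^ m) := by
    unfold Lam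
    rw [integral_const_mul, integral_finsetSum _ (fun j _ => ((integrable_prodS k P m B _).const_mul _).const_mul _)]
    congr 1
    refine sum_congr rfl fun j _ => ?_
    rw [integral_const_mul, integral_const_mul, int_prodS]
  have h2 : ∑ j ∈ (Icc (-(hh k B P : ℤ)) (hh k B P)).filter (fun j : ℤ => |(j : ℝ)| < J),
        |(j : ℝ)| / J * (((KX k B * P : ℕ) : ℝ) ^ (v + 1) *
          (∫ a in Set.Ioc (0 : ℝ) B, ‖S k P (j / QQ k B P) a‖) ^ m) ≤
      ∑ j ∈ (Icc (-(hh k B P : ℤ)) (hh k B P)).filter (fun j : ℤ => |(j : ℝ)| < J ∧ j ≠ 0),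
        ((KX k B * P : ℝ) ^ (v + 1) * (Real.sqrt D * P) ^ m / J) * (1 / Real.sqrt |(j : ℝ)|) := by
    rw [← filter_filter]
    rw [← sum_filter_add_sum_filter_not ((Icc (-(hh k B P : ℤ)) (hh k B P)).filter (fun j : ℤ => |(j : ℝ)| < J))
      (fun j : ℤ => j ≠ 0)]
    have hz : ∑ x ∈ ((Icc (-(hh k B P : ℤ)) (hh k B P)).filter (fun j : ℤ => |(j : ℝ)| < J)).filter
        (fun j : ℤ => ¬ j ≠ 0), |(x : ℝ)| / J * (((KX k B * P : ℕ) : ℝ) ^ (v + 1) *
          (∫ a in Set.Ioc (0 : ℝ) B, ‖S k P (x / QQ k B P) a‖) ^ m) = 0 := by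
      refine sum_eq_zero fun j hj => ?_
      have := (mem_filter.mp hj).2
      push Not at this
      rw [this]; simp
    rw [hz, add_zero]
    refine sum_le_sum fun j hj => ?_
    rw [mem_filter, mem_filter] at hj
    obtain ⟨⟨hj1, hj2⟩, hj3⟩ := hj
    have hja : 0 < |(j : ℝ)| := abs_pos.mpr (by exact_mod_cast hj3)
    have hj4 : (1 : ℝ) ≤ |(j : ℝ)| := by exact_mod_cast Int.one_le_abs hj3
    have h3 := hSa P hP1 j hj1 hj3
    have h4 := sq_int_le k P B hB (j / QQ k B P)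
    set q : ℝ := Real.sqrt |(j : ℝ)| with hq
    have hq1 : 1 ≤ q := by rw [hq, Real.one_le_sqrt]; exact hj4
    have hq2 : q ^ 2 = |(j : ℝ)| := Real.sq_sqrt hja.le
    set I : ℝ := ∫ a in Set.Ioc (0 : ℝ) B, ‖S k P (j / QQ k B P) a‖ with hI
    have hI0 : 0 ≤ I := integral_nonneg fun a => norm_nonneg _
    have h5 : I ≤ Real.sqrt D * P / q := by
      have h6 : (1 : ℝ) ≤ CQ k B * P / |(j : ℝ)| := by
        rw [le_div_iff₀ hja]; nlinarith
      have h7 : I ^ 2 ≤ (Real.sqrt D * P / q) ^ 2 := by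
        calc I ^ 2 ≤ B * (CS * P * (1 + CQ k B * P / |(j : ℝ)|)) := h4.trans (mul_le_mul_of_nonneg_left h3 (by positivity))
          _ ≤ B * (CS * P * (2 * (CQ k B * P / |(j : ℝ)|))) := by
              refine mul_le_mul_of_nonneg_left (mul_le_mul_of_nonneg_left (by linarith) (by positivity)) (by positivity)
          _ = D * P ^ 2 / |(j : ℝ)| := by rw [hD]; ring
          _ = (Real.sqrt D * P / q) ^ 2 := by rw [div_pow, mul_pow, Real.sq_sqrt hD0.le, hq2]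
      exact le_of_sq_le_sq h7 (by positivity)
    have h7 : I ^ m ≤ (Real.sqrt D * P) ^ m / q ^ 3 := by
      calc I ^ m ≤ (Real.sqrt D * P / q) ^ m := pow_le_pow_left₀ hI0 h5 m
        _ = (Real.sqrt D * P) ^ m / q ^ m := div_pow _ _ _
        _ ≤ (Real.sqrt D * P) ^ m / q ^ 3 :=
            div_le_div_of_nonneg_left (by positivity) (by positivity) (pow_le_pow_right₀ hq1 hm3)
    calc |(j : ℝ)| / J * (((KX k B * P : ℕ) : ℝ) ^ (v + 1) * I ^ m)
        ≤ |(j : ℝ)| / J * (((KX k B * P : ℕ) : ℝ) ^ (v + 1) * ((Real.sqrt D * P) ^ m / q ^ 3)) := by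
          refine mul_le_mul_of_nonneg_left (mul_le_mul_of_nonneg_left h7 (by positivity)) (by positivity)
      _ = ((KX k B * P : ℝ) ^ (v + 1) * (Real.sqrt D * P) ^ m / J) * (1 / q) := by
          rw [← hq2]
          push_cast
          field_simp
  have h9 := sum_inv_le (hh k B P) J
  have hQ1 : 1 / QQ k B P ≤ 1 / (P : ℝ) ^ k := one_div_le_one_div_of_le (by positivity) (le_QQ k B P hk hB)
  have hpR : (1 : ℝ) ≤ p := by exact_mod_cast hp
  have hsJ : (0 : ℝ) < Real.sqrt J := Real.sqrt_pos.mpr (by linarith)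
  have hsJ2 : Real.sqrt J ^ 2 = J := Real.sq_sqrt (by linarith)
  have hpJ : (p : ℝ) ^ 2 ≤ Real.sqrt J := by
    have h10 : ((p : ℝ) ^ 2) ^ 2 ≤ J := by
      rw [← pow_mul]
      have : p ^ 4 ≤ J := by rw [hJ]; exact Nat.pow_le_pow_right hp (by omega)
      exact_mod_cast this
    exact Real.le_sqrt_of_sq_le h10
  rw [h1]
  calc 1 / QQ k B P * ∑ j ∈ (Icc (-(hh k B P : ℤ)) (hh k B P)).filter (fun j : ℤ => |(j : ℝ)| < J),
        |(j : ℝ)| / J * (((KX k B * P : ℕ) : ℝ) ^ (v + 1) *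
          (∫ a in Set.Ioc (0 : ℝ) B, ‖S k P (j / QQ k B P) a‖) ^ m)
      ≤ 1 / (P : ℝ) ^ k * (((KX k B * P : ℝ) ^ (v + 1) * (Real.sqrt D * P) ^ m / J) * (4 * Real.sqrt J)) := by
        refine mul_le_mul hQ1 (h2.trans ?_) (sum_nonneg fun j _ => ?_) (by positivity)
        · rw [← mul_sum]
          exact mul_le_mul_of_nonneg_left h9 (by positivity)
        · have : 0 ≤ ∫ a in Set.Ioc (0 : ℝ) B, ‖S k P (j / QQ k B P) a‖ := integral_nonneg fun a => norm_nonneg _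
          positivity
    _ = (KX k B : ℝ) ^ (v + 1) * Real.sqrt D ^ m * 4 * ((P : ℝ) ^ (v + 1 + m) / (P : ℝ) ^ k) * (Real.sqrt J / J) := by
        rw [mul_pow, mul_pow, pow_add (P : ℝ) (v + 1) m]
        field_simp
    _ = (KX k B : ℝ) ^ (v + 1) * Real.sqrt D ^ m * 4 * (P : ℝ) ^ (k + 1) * (1 / Real.sqrt J) := by
        have e1 : (P : ℝ) ^ (v + 1 + m) / (P : ℝ) ^ k = (P : ℝ) ^ (k + 1) := by
          rw [div_eq_iff (by positivity), ← pow_add]; congr 1; omega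
        have e2 : Real.sqrt J / J = 1 / Real.sqrt J := by
          rw [div_eq_div_iff (by positivity) (by positivity), one_mul, ← sq, hsJ2]
        rw [e1, e2]
    _ ≤ (KX k B : ℝ) ^ (v + 1) * Real.sqrt D ^ m * 4 * (P : ℝ) ^ (k + 1) * (1 / (p : ℝ) ^ 2) := by
        refine mul_le_mul_of_nonneg_left ?_ (by positivity)
        exact one_div_le_one_div_of_le (by positivity) hpJ
    _ = _ := by ring

/-- high frequencies -/
theorem int_Xi (k v m B : ℕ) (hk : 2 ≤ k) (hv : v ≤ 2) (hvk : v + 1 ≤ k) (hm : m + v = 2 * k) (hB : 1 ≤ B)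
    (hS : SStm) (hE : EnergyStm) : ∃ C2 : ℝ, 0 < C2 ∧ ∀ p : ℕ, 1 ≤ p →
    Integrable (Xi k v m B (p ^ LL k) (p ^ (LL k - 1))) (mu m B) ∧
    ∫ α, Xi k v m B (p ^ LL k) (p ^ (LL k - 1)) α ∂(mu m B) ≤
      C2 * ((p ^ LL k : ℕ) : ℝ) ^ (2 * k + 2) / (p : ℝ) ^ 2 := by
  obtain ⟨CS, hCS, hSa⟩ := S_at k B hk hB hS
  have hKXn := KX_pos k B hk hB
  obtain ⟨CE, hCE, hEn⟩ := hE k (KX k B) v hv hvk hKXn
  have hCQ := CQ_ge k B hk hB
  set D : ℝ := 2 * CS * CQ k B with hD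
  have hD0 : 0 < D := by positivity
  have hKX : (1 : ℝ) ≤ KX k B := by exact_mod_cast hKXn
  refine ⟨max 1 CE * D ^ m, by positivity, fun p hp => ?_⟩
  set P := p ^ LL k with hP
  set J := p ^ (LL k - 1) with hJ
  have hLL : 8 ≤ LL k := by unfold LL; omega
  have hP1 : 1 ≤ P := Nat.one_le_pow _ _ hp
  have hJ1 : 1 ≤ J := Nat.one_le_pow _ _ hp
  have hPJ : P = p * J := by rw [hP, hJ, ← pow_succ', Nat.sub_add_cancel (by omega : 1 ≤ LL k)]
  have hPR : (1 : ℝ) ≤ P := by exact_mod_cast hP1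
  have hJR : (1 : ℝ) ≤ J := by exact_mod_cast hJ1
  have hpR : (1 : ℝ) ≤ p := by exact_mod_cast hp
  have hPJR : (P : ℝ) = p * J := by rw [hPJ]; push_cast; ring
  have hQp := QQ_pos k B P
  have hint : Integrable (Xi k v m B P J) (mu m B) := by
    unfold Xi
    refine Integrable.const_mul (integrable_finsetSum _ fun j _ => ?_) _
    exact (integrable_prodS2 k P m B _).const_mul _
  refine ⟨hint, ?_⟩
  have h1 : ∫ α, Xi k v m B P J α ∂(mu m B) = 1 / QQ k B P *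
      ∑ j ∈ (Icc (-(hh k B P : ℤ)) (hh k B P)).filter (fun j : ℤ => (J : ℝ) ≤ |(j : ℝ)|),
        (‖Fx k B P (j / QQ k B P)‖ ^ (2 * (v + 1)) *
          (∫ a in Set.Ioc (0 : ℝ) B, ‖S k P (j / QQ k B P) a‖ ^ 2) ^ m) := by
    unfold Xi
    rw [integral_const_mul, integral_finsetSum _ (fun j _ => (integrable_prodS2 k P m B _).const_mul _)]
    congr 1
    refine sum_congr rfl fun j _ => ?_
    rw [integral_const_mul, int_prodS2]
  have h2 : ∑ j ∈ (Icc (-(hh k B P : ℤ)) (hh k B P)).filter (fun j : ℤ => (J : ℝ) ≤ |(j : ℝ)|),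
        (‖Fx k B P (j / QQ k B P)‖ ^ (2 * (v + 1)) *
          (∫ a in Set.Ioc (0 : ℝ) B, ‖S k P (j / QQ k B P) a‖ ^ 2) ^ m) ≤
      (∑ j ∈ Icc (-(hh k B P : ℤ)) (hh k B P), ‖Fx k B P (j / QQ k B P)‖ ^ (2 * (v + 1))) * (D * P * p) ^ m := by
    rw [sum_mul]
    refine (sum_le_sum fun j hj => ?_).trans
      (sum_le_sum_of_subset_of_nonneg (filter_subset _ _) (fun j _ _ => by positivity))
    rw [mem_filter] at hj
    obtain ⟨hj1, hj2⟩ := hj
    have hja : (0 : ℝ) < |(j : ℝ)| := by linarith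
    have hj0 : j ≠ 0 := by
      intro h0; rw [h0] at hja; simp at hja
    have h3 := hSa P hP1 j hj1 hj0
    have h4 : CQ k B * P / |(j : ℝ)| ≤ CQ k B * p := by
      rw [div_le_iff₀ hja, hPJR]
      have : CQ k B * p * J ≤ CQ k B * p * |(j : ℝ)| := mul_le_mul_of_nonneg_left hj2 (by positivity)
      linarith
    have h5 : ∫ a in Set.Ioc (0 : ℝ) B, ‖S k P (j / QQ k B P) a‖ ^ 2 ≤ D * P * p := by
      have h6 : (1 : ℝ) ≤ CQ k B * p := by nlinarith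
      calc _ ≤ CS * P * (1 + CQ k B * P / |(j : ℝ)|) := h3
        _ ≤ CS * P * (2 * (CQ k B * p)) := mul_le_mul_of_nonneg_left (by linarith) (by positivity)
        _ = D * P * p := by rw [hD]; ring
    exact mul_le_mul_of_nonneg_left (pow_le_pow_left₀ (integral_nonneg fun a => sq_nonneg _) h5 _) (by positivity)
  -- the moment of the free variables
  set E : ℝ := 1 / QQ k B P * ∑ j ∈ Icc (-(hh k B P : ℤ)) (hh k B P), ‖Fx k B P (j / QQ k B P)‖ ^ (2 * (v + 1)) with hEd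
  have hE0 : 0 ≤ E := by rw [hEd]; exact mul_nonneg (by positivity) (sum_nonneg fun j _ => by positivity)
  have hE1 : E ^ 4 * P ≤ CE * (P : ℝ) ^ (4 * (v + 2)) := by
    refine hEn P (hh k B P) hP1 ?_
    unfold hh
    calc 2 * (KX k B * P) ^ k = 2 * KX k B ^ k * P ^ k := by rw [mul_pow]; ring
      _ ≤ (4 * KX k B ^ k + KX k B) * P ^ k := Nat.mul_le_mul_right _ (by omega)
  have hE2 : E * (p : ℝ) ^ (2 * k + 2) ≤ max 1 CE * (P : ℝ) ^ (v + 2) := by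
    refine le_of_pow_le_pow_left₀ (n := 4) (by norm_num) (by positivity) ?_
    have e1 : ((p : ℝ) ^ (2 * k + 2)) ^ 4 = P := by
      rw [← pow_mul, hP]; push_cast; congr 1; unfold LL; ring
    have e2 : (E * (p : ℝ) ^ (2 * k + 2)) ^ 4 = E ^ 4 * P := by rw [mul_pow E, e1]
    have e3 : (max 1 CE * (P : ℝ) ^ (v + 2)) ^ 4 = max 1 CE ^ 4 * (P : ℝ) ^ (4 * (v + 2)) := by
      rw [mul_pow (max 1 CE), ← pow_mul, mul_comm (v + 2) 4]
    rw [e2, e3]
    refine hE1.trans (mul_le_mul_of_nonneg_right ?_ (by positivity))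
    have h6 : CE ≤ max 1 CE := le_max_right _ _
    have h7 : (1 : ℝ) ≤ max 1 CE := le_max_left _ _
    calc CE ≤ max 1 CE := h6
      _ = max 1 CE ^ 1 := (pow_one _).symm
      _ ≤ max 1 CE ^ 4 := pow_le_pow_right₀ h7 (by norm_num)
  rw [h1]
  have hpp : (0 : ℝ) < (p : ℝ) ^ (2 * k + 2) := by positivity
  calc _ ≤ 1 / QQ k B P * ((∑ j ∈ Icc (-(hh k B P : ℤ)) (hh k B P), ‖Fx k B P (j / QQ k B P)‖ ^ (2 * (v + 1))) *
          (D * P * p) ^ m) := mul_le_mul_of_nonneg_left h2 (by positivity)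
    _ = E * (D * P * p) ^ m := by rw [← mul_assoc]
    _ ≤ (max 1 CE * (P : ℝ) ^ (v + 2) / (p : ℝ) ^ (2 * k + 2)) * (D * P * p) ^ m := by
        refine mul_le_mul_of_nonneg_right ?_ (by positivity)
        rw [le_div_iff₀ hpp]; exact hE2
    _ = max 1 CE * D ^ m * (P : ℝ) ^ (v + 2 + m) * ((p : ℝ) ^ m / (p : ℝ) ^ (2 * k + 2)) := by
        rw [mul_pow, mul_pow, pow_add (P : ℝ) (v + 2) m]; ring
    _ ≤ max 1 CE * D ^ m * (P : ℝ) ^ (v + 2 + m) * (1 / (p : ℝ) ^ 2) := by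
        refine mul_le_mul_of_nonneg_left ?_ (by positivity)
        rw [div_le_div_iff₀ (by positivity) (by positivity), one_mul, ← pow_add]
        exact pow_le_pow_right₀ hpR (by omega)
    _ = _ := by
        have : v + 2 + m = 2 * k + 2 := by omega
        rw [this]; ring

end Pool.Agent.Helper11W
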