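import Pool.Agent.Helper11W.SMs

/-!
# The weight and integrability
-/

set_option autoImplicit false

namespace Pool.Agent.Helper11W

open MeasureTheory Finset

/-- `sin²(π u)` -/
noncomputable def psi (u : ℝ) : ℝ := Real.sin (Real.pi * u) ^ 2

theorem psi_nonneg (u : ℝ) : 0 ≤ psi u := sq_nonneg _

theorem S_eq (k P : ℕ) (t α : ℝ) : S k P t α =
    ∑ y ∈ Ioc P (2 * P), (psi (α * (y : ℝ) ^ k) : ℂ) * e (t * ⌊α * (y : ℝ) ^ k⌋) := rfl

theorem e_sum {ι : Type*} (s : Finset ι) (f : ι → ℝ) : e (∑ i ∈ s, f i) = ∏ i ∈ s, e (f i) := by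
  classical
  induction s using Finset.induction_on with
  | empty => simp [e]
  | insert a s ha ih => rw [sum_insert ha, prod_insert ha, e_add, ih]

theorem psi_le_one (u : ℝ) : psi u ≤ 1 := by
  unfold psi; exact Real.sin_sq_le_one _

theorem measurable_S (k P : ℕ) (t : ℝ) : Measurable (S k P t) := by
  unfold S
  refine Finset.measurable_sum _ fun y _ => ?_
  refine Measurable.mul ?_ ?_
  · exact Complex.measurable_ofReal.comp (by fun_prop)
  · refine continuous_e.measurable.comp ?_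
    refine Measurable.const_mul ?_ _
    have h1 : Measurable (fun a : ℝ => ⌊a * (y : ℝ) ^ k⌋) := by
      exact Int.measurable_floor.comp (by fun_prop)
    exact (measurable_from_top (f := fun n : ℤ => (n : ℝ))).comp h1

theorem norm_S_le (k P : ℕ) (t α : ℝ) : ‖S k P t α‖ ≤ P := by
  rw [S_eq]
  refine (norm_sum_le _ _).trans ?_
  have : ∀ y ∈ Ioc P (2 * P), ‖(psi (α * (y : ℝ) ^ k) : ℂ) * e (t * ⌊α * (y : ℝ) ^ k⌋)‖ ≤ 1 := by
    intro y _
    rw [norm_mul, norm_e, mul_one, Complex.norm_real, Real.norm_of_nonneg (psi_nonneg _)]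
    exact psi_le_one _
  refine (sum_le_sum this).trans ?_
  simp only [sum_const, Nat.card_Ioc, nsmul_eq_mul, mul_one]
  have : 2 * P - P = P := by omega
  rw [this]

theorem integrable_S (k P B : ℕ) (t : ℝ) : Integrable (fun a => ‖S k P t a‖) (volume.restrict (Set.Ioc (0 : ℝ) B)) := by
  refine Integrable.of_bound (measurable_S k P t).norm.aestronglyMeasurable (P : ℝ) ?_
  refine Filter.Eventually.of_forall fun a => ?_
  rw [norm_norm]; exact norm_S_le k P t a

theorem integrable_S2 (k P B : ℕ) (t : ℝ) :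
    Integrable (fun a => ‖S k P t a‖ ^ 2) (volume.restrict (Set.Ioc (0 : ℝ) B)) := by
  refine Integrable.of_bound ((measurable_S k P t).norm.pow_const 2).aestronglyMeasurable ((P : ℝ) ^ 2) ?_
  refine Filter.Eventually.of_forall fun a => ?_
  rw [norm_pow, norm_norm]; exact pow_le_pow_left₀ (norm_nonneg _) (norm_S_le k P t a) 2

theorem vol_Ioc (B : ℕ) : (volume.restrict (Set.Ioc (0 : ℝ) B)).real Set.univ = B := by
  rw [measureReal_def, Measure.restrict_apply MeasurableSet.univ, Set.univ_inter, Real.volume_Ioc, sub_zero,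
    ENNReal.toReal_ofReal (by positivity)]

theorem sq_int_le (k P B : ℕ) (hB : 1 ≤ B) (t : ℝ) :
    (∫ a in Set.Ioc (0 : ℝ) B, ‖S k P t a‖) ^ 2 ≤ B * ∫ a in Set.Ioc (0 : ℝ) B, ‖S k P t a‖ ^ 2 := by
  set I := ∫ a in Set.Ioc (0 : ℝ) B, ‖S k P t a‖ with hI
  have hBR : (0 : ℝ) < B := by exact_mod_cast hB
  have h1 : 0 ≤ ∫ a in Set.Ioc (0 : ℝ) B, (‖S k P t a‖ - I / B) ^ 2 := integral_nonneg fun a => sq_nonneg _
  have h2 : ∫ a in Set.Ioc (0 : ℝ) B, (‖S k P t a‖ - I / B) ^ 2 =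
      (∫ a in Set.Ioc (0 : ℝ) B, ‖S k P t a‖ ^ 2) - 2 * (I / B) * I + (I / B) ^ 2 * B := by
    have e1 : ∀ a, (‖S k P t a‖ - I / B) ^ 2 = (‖S k P t a‖ ^ 2 - 2 * (I / B) * ‖S k P t a‖) + (I / B) ^ 2 := by
      intro a; ring
    simp_rw [e1]
    have i1 : Integrable (fun a => ‖S k P t a‖ ^ 2) (volume.restrict (Set.Ioc (0 : ℝ) B)) := integrable_S2 k P B t
    have i2 : Integrable (fun a => 2 * (I / B) * ‖S k P t a‖) (volume.restrict (Set.Ioc (0 : ℝ) B)) :=
      (integrable_S k P B t).const_mul _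
    have i3 : Integrable (fun a => ‖S k P t a‖ ^ 2 - 2 * (I / B) * ‖S k P t a‖)
      (volume.restrict (Set.Ioc (0 : ℝ) B)) := i1.sub i2
    rw [integral_add i3 (integrable_const _), integral_sub i1 i2, integral_const_mul,
      integral_const, vol_Ioc, smul_eq_mul]
    ring
  rw [h2] at h1
  have h3 : (∫ a in Set.Ioc (0 : ℝ) B, ‖S k P t a‖ ^ 2) - 2 * (I / B) * I + (I / B) ^ 2 * B =
      (∫ a in Set.Ioc (0 : ℝ) B, ‖S k P t a‖ ^ 2) - I ^ 2 / B := by
    field_simp; ring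
  rw [h3] at h1
  have h4 : I ^ 2 / B ≤ ∫ a in Set.Ioc (0 : ℝ) B, ‖S k P t a‖ ^ 2 := by linarith
  rw [div_le_iff₀ hBR] at h4
  linarith

end Pool.Agent.Helper11W
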