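import Pool.Agent.Helper11W.Stm

set_option autoImplicit false

namespace Pool.Agent.Helper11W

open Finset

/-- `(a+1)^k - (a-b)^k ≤ (b+1) k (a+1)^(k-1)` -/
theorem pow_sub_le (k x y : ℕ) (hk : 1 ≤ k) (h : x ≤ y) :
    (y : ℤ) ^ k - (x : ℤ) ^ k ≤ ((y : ℤ) - x) * (k * (y : ℤ) ^ (k - 1)) := by
  have h1 : (y : ℤ) ^ k - (x : ℤ) ^ k =
      ((y : ℤ) - x) * ∑ i ∈ range k, (y : ℤ) ^ i * (x : ℤ) ^ (k - 1 - i) := by
    rw [mul_comm]
    exact (geom_sum₂_mul (y : ℤ) (x : ℤ) k).symm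
  rw [h1]
  apply mul_le_mul_of_nonneg_left _ (by
    have : (x : ℤ) ≤ y := by exact_mod_cast h
    linarith)
  calc ∑ i ∈ range k, (y : ℤ) ^ i * (x : ℤ) ^ (k - 1 - i)
      ≤ ∑ i ∈ range k, (y : ℤ) ^ (k - 1) := by
        apply sum_le_sum
        intro i hi
        have hi' : i ≤ k - 1 := by have := mem_range.mp hi; omega
        have hxy : (x : ℤ) ≤ y := by exact_mod_cast h
        calc (y : ℤ) ^ i * (x : ℤ) ^ (k - 1 - i) ≤ (y : ℤ) ^ i * (y : ℤ) ^ (k - 1 - i) := by
              apply mul_le_mul_of_nonneg_left _ (by positivity)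
              exact pow_le_pow_left₀ (by positivity) hxy _
          _ = (y : ℤ) ^ (k - 1) := by
              rw [← pow_add]
              congr 1
              omega
    _ = k * (y : ℤ) ^ (k - 1) := by simp

theorem exists_root (k R : ℕ) (hk : 1 ≤ k) : ∃ a : ℕ, a ^ k ≤ R ∧ R < (a + 1) ^ k := by
  classical
  refine ⟨Nat.findGreatest (fun a => a ^ k ≤ R) R, ?_, ?_⟩
  · have h0 : (fun a => a ^ k ≤ R) 0 := by
      show 0 ^ k ≤ R
      rw [zero_pow (by omega)]
      exact Nat.zero_le _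
    exact Nat.findGreatest_spec (P := fun a => a ^ k ≤ R) (Nat.zero_le R) h0
  · by_contra hcon
    push Not at hcon
    set a := Nat.findGreatest (fun a => a ^ k ≤ R) R with ha
    have h1 : a + 1 ≤ R := le_trans (Nat.le_self_pow (by omega) (a + 1)) hcon
    have h2 : a + 1 ≤ Nat.findGreatest (fun a => a ^ k ≤ R) R :=
      Nat.le_findGreatest (P := fun a => a ^ k ≤ R) h1 hcon
    omega

theorem count : CountStm := by
  intro k K hk hK
  obtain ⟨L, hL⟩ : ∃ L : ℕ, L = 8 * k * (2 * K) ^ (k - 1) := ⟨_, rfl⟩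
  have hL1 : 1 ≤ L := by
    rw [hL]
    have : 1 ≤ (2 * K) ^ (k - 1) := Nat.one_le_pow _ _ (by omega)
    nlinarith
  have hLr : (0 : ℝ) < L := by exact_mod_cast hL1
  refine ⟨1 / (2 * L), by positivity, L, ?_⟩
  intro P J hPJ hJ r hr1 hr2
  have hP1 : 1 ≤ P := le_trans (by nlinarith) hPJ
  have hr0 : 0 ≤ r := le_trans (by positivity) hr1
  obtain ⟨R, rfl⟩ := Int.eq_ofNat_of_zero_le hr0
  have hR1 : P ^ k ≤ R := by exact_mod_cast hr1
  have hR2 : R ≤ K * P ^ k := by exact_mod_cast hr2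
  obtain ⟨a, ha1, ha2⟩ := exists_root k R hk
  have haP : P ≤ a := by
    by_contra hcon
    have h1 : a + 1 ≤ P := by omega
    have := Nat.pow_le_pow_left h1 k
    omega
  have haK : a ≤ K * P := by
    have h1 : a ^ k ≤ (K * P) ^ k := by
      calc a ^ k ≤ K * P ^ k := le_trans ha1 hR2
        _ ≤ K ^ k * P ^ k := Nat.mul_le_mul_right _ (Nat.le_self_pow (by omega) K)
        _ = (K * P) ^ k := (mul_pow K P k).symm
    exact (Nat.pow_le_pow_iff_left (by omega)).mp h1
  obtain ⟨m, hm⟩ : ∃ m : ℕ, m = P / (L * J) := ⟨_, rfl⟩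
  have hLJ : 0 < L * J := by positivity
  have hm1 : m * (L * J) ≤ P := by rw [hm]; exact Nat.div_mul_le_self _ _
  have hm2 : P < (m + 1) * (L * J) := by
    rw [hm]
    have := Nat.lt_div_mul_add (a := P) hLJ
    nlinarith
  have hm0 : 1 ≤ m := by
    rw [hm]
    exact (Nat.one_le_div_iff hLJ).mpr hPJ
  have hmP : m ≤ P := le_trans (Nat.le_mul_of_pos_right m hLJ) hm1
  have hsub : (range m).image (fun b => a - b) ⊆ (Icc 1 (K * P)).filter
        (fun x : ℕ => (8 * J : ℤ) * |(x : ℤ) ^ k - (R : ℤ)| ≤ (P : ℤ) ^ k) := by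
    intro x hx
    obtain ⟨b, hb, rfl⟩ := mem_image.mp hx
    have hbm : b + 1 ≤ m := by have := mem_range.mp hb; omega
    rw [mem_filter, mem_Icc]
    refine ⟨⟨by omega, by omega⟩, ?_⟩
    have hle : ((a - b : ℕ) : ℤ) ^ k ≤ R := by
      have : (a - b) ^ k ≤ R := le_trans (Nat.pow_le_pow_left (by omega) k) ha1
      exact_mod_cast this
    rw [abs_sub_comm, abs_of_nonneg (by linarith)]
    have h1 := pow_sub_le k (a - b) (a + 1) hk (by omega)
    have h2 : (R : ℤ) ≤ ((a + 1 : ℕ) : ℤ) ^ k := by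
      exact_mod_cast ha2.le
    have h3 : (((a + 1 : ℕ) : ℤ) - ((a - b : ℕ) : ℤ)) = (b : ℤ) + 1 := by
      have : b ≤ a := by omega
      push_cast [Nat.cast_sub this]
      ring
    rw [h3] at h1
    have h4 : ((a + 1 : ℕ) : ℤ) ^ (k - 1) ≤ (2 * K : ℤ) ^ (k - 1) * (P : ℤ) ^ (k - 1) := by
      rw [← mul_pow]
      apply pow_le_pow_left₀ (by positivity)
      have : a + 1 ≤ 2 * K * P := by nlinarith [Nat.mul_le_mul hK hP1]
      exact_mod_cast this
    have hJ0 : (0 : ℤ) ≤ 8 * J := by positivity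
    calc (8 * J : ℤ) * ((R : ℤ) - ((a - b : ℕ) : ℤ) ^ k)
        ≤ (8 * J : ℤ) * (((b : ℤ) + 1) * (k * ((2 * K : ℤ) ^ (k - 1) * (P : ℤ) ^ (k - 1)))) := by
          apply mul_le_mul_of_nonneg_left _ hJ0
          refine le_trans (by linarith : _ ≤ ((b : ℤ) + 1) * (k * ((a + 1 : ℕ) : ℤ) ^ (k - 1))) ?_
          apply mul_le_mul_of_nonneg_left _ (by positivity)
          exact mul_le_mul_of_nonneg_left h4 (by positivity)
      _ = ((b : ℤ) + 1) * (L * J) * (P : ℤ) ^ (k - 1) := by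
          rw [hL]
          push_cast
          ring
      _ ≤ (P : ℤ) * (P : ℤ) ^ (k - 1) := by
          apply mul_le_mul_of_nonneg_right _ (by positivity)
          have : (b + 1) * (L * J) ≤ P := le_trans (Nat.mul_le_mul_right _ hbm) hm1
          exact_mod_cast this
      _ = (P : ℤ) ^ k := by
          rw [← pow_succ']
          congr 1
          omega
  have hcard : ((range m).image (fun b => a - b)).card = m := by
    rw [card_image_of_injOn, card_range]
    intro b hb b' hb' hbb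
    have h1 := mem_range.mp (mem_coe.mp hb)
    have h2 := mem_range.mp (mem_coe.mp hb')
    simp only at hbb
    omega
  have hle := card_le_card hsub
  rw [hcard] at hle
  refine le_trans ?_ (by exact_mod_cast hle : (m : ℝ) ≤ _)
  have hJr : (0 : ℝ) < J := by exact_mod_cast hJ
  have h5 : (P : ℝ) ≤ 2 * m * (L * J) := by
    have : P ≤ 2 * m * (L * J) := by nlinarith
    exact_mod_cast this
  rw [div_mul_div_comm, div_le_iff₀ (by positivity)]
  nlinarith

end Pool.Agent.Helper11W
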