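import Pool.Agent.Helper11W.Bas

/-!
# The deterministic part: a missed integer forces `Λ` or `Ξ` or a weight sum to be exceptional
-/

set_option autoImplicit false

namespace Pool.Agent.Helper11W

open MeasureTheory Finset

/-- the exponent `L`: `P = p^L`, `J = p^(L-1)` -/
def LL (k : ℕ) : ℕ := 8 * k + 8

/-- `K` -/
def KK (k B : ℕ) : ℕ := 8 * k * B * 2 ^ k

/-- range of the free variables: `x ≤ KX * P` -/
def KX (k B : ℕ) : ℕ := 2 ^ (LL k * k) * KK k B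

/-- half of the modulus -/
def hh (k B P : ℕ) : ℕ := (4 * KX k B ^ k + KX k B) * P ^ k

/-- the modulus -/
noncomputable def QQ (k B P : ℕ) : ℝ := 2 * (hh k B P : ℝ) + 1

/-- exponential sum of a free variable -/
noncomputable def Fx (k B P : ℕ) (t : ℝ) : ℂ := ∑ x ∈ Icc 1 (KX k B * P), e (t * (x : ℝ) ^ k)

/-- low frequencies -/
noncomputable def Lam (k v m B P J : ℕ) (α : Fin m → ℝ) : ℝ :=
  1 / QQ k B P * ∑ j ∈ (Icc (-(hh k B P : ℤ)) (hh k B P)).filter (fun j : ℤ => |(j : ℝ)| < J),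
    |(j : ℝ)| / J * (((KX k B * P : ℕ) : ℝ) ^ (v + 1) * ∏ i, ‖S k P (j / QQ k B P) (α i)‖)

/-- high frequencies -/
noncomputable def Xi (k v m B P J : ℕ) (α : Fin m → ℝ) : ℝ :=
  1 / QQ k B P * ∑ j ∈ (Icc (-(hh k B P : ℤ)) (hh k B P)).filter (fun j : ℤ => (J : ℝ) ≤ |(j : ℝ)|),
    (‖Fx k B P (j / QQ k B P)‖ ^ (2 * (v + 1)) * ∏ i, ‖S k P (j / QQ k B P) (α i)‖ ^ 2)

/-- the size of the main term -/
noncomputable def Am (k v m B P : ℕ) (c : ℝ) : ℝ :=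
  c * (P : ℝ) ^ (v + 1) / (4 * QQ k B P) * (P / 4 : ℝ) ^ m

theorem QQ_pos (k B P : ℕ) : 0 < QQ k B P := by unfold QQ; positivity

theorem norm_Fx_le (k B P : ℕ) (t : ℝ) : ‖Fx k B P t‖ ≤ (KX k B * P : ℕ) := by
  unfold Fx
  refine (norm_sum_le _ _).trans ?_
  simp only [norm_e, sum_const, Nat.card_Icc, nsmul_eq_mul, mul_one]
  simp

/-- factorisation of the sum over all variables -/
theorem factor (k v m B P : ℕ) (α : Fin m → ℝ) (n : ℤ) (t : ℝ) :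
    ∑ x ∈ Icc 1 (KX k B * P), ∑ z ∈ Fintype.piFinset (fun _ : Fin v => Icc 1 (KX k B * P)),
      ∑ y ∈ Fintype.piFinset (fun _ : Fin m => Ioc P (2 * P)),
      ((∏ i, psi (α i * (y i : ℝ) ^ k) : ℝ) : ℂ) *
        e (t * (((x : ℤ) ^ k + ∑ i, (z i : ℤ) ^ k + ∑ i, ⌊α i * (y i : ℝ) ^ k⌋ - n : ℤ) : ℝ)) =
    e (-(t * n)) * (Fx k B P t ^ (v + 1) * ∏ i, S k P t (α i)) := by
  have h1 : ∏ i, S k P t (α i) = ∑ y ∈ Fintype.piFinset (fun _ : Fin m => Ioc P (2 * P)),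
      ∏ i, ((psi (α i * (y i : ℝ) ^ k) : ℂ) * e (t * ⌊α i * (y i : ℝ) ^ k⌋)) := by
    simp_rw [S_eq]
    rw [Finset.prod_univ_sum]
  have h0 : Fx k B P t ^ v = ∑ z ∈ Fintype.piFinset (fun _ : Fin v => Icc 1 (KX k B * P)),
      ∏ i, e (t * (z i : ℝ) ^ k) := by
    have : Fx k B P t ^ v = ∏ _i : Fin v, Fx k B P t := by rw [prod_const, card_univ, Fintype.card_fin]
    rw [this]
    unfold Fx
    rw [Finset.prod_univ_sum]
  rw [h1, pow_succ', h0]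
  unfold Fx
  rw [mul_assoc, sum_mul_sum, sum_mul_sum, mul_sum]
  simp_rw [mul_sum]
  refine sum_congr rfl fun x _ => sum_congr rfl fun z _ => sum_congr rfl fun y _ => ?_
  rw [prod_mul_distrib, ← e_sum, ← e_sum]
  have h2 : t * (((x : ℤ) ^ k + ∑ i, (z i : ℤ) ^ k + ∑ i, ⌊α i * (y i : ℝ) ^ k⌋ - n : ℤ) : ℝ) =
      -(t * n) + (t * (x : ℝ) ^ k + (∑ i, t * (z i : ℝ) ^ k + ∑ i, t * (⌊α i * (y i : ℝ) ^ k⌋ : ℝ))) := by
    push_cast
    rw [← mul_sum, ← mul_sum]; ring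
  rw [h2, e_add, e_add, e_add]
  push_cast
  ring

theorem det (k v m B : ℕ) (hk : 2 ≤ k) (hv : v ≤ 2) (hm : m + v = 2 * k) (hB : 1 ≤ B) (hK : KernelStm)
    (hC : CountStm) :
    ∃ c : ℝ, 0 < c ∧ ∃ P₀ : ℕ, ∀ P J : ℕ, 1 ≤ J → P₀ * J ≤ P → J ≤ P → ∀ n : ℤ,
      (KK k B : ℤ) * P ^ k ≤ n → n ≤ (KX k B : ℤ) * P ^ k → ∀ α : Fin m → ℝ,
      (∀ i, 0 < α i ∧ α i ≤ B) → (∀ i, (P : ℝ) / 4 ≤ ∑ y ∈ Ioc P (2 * P), psi (α i * (y : ℝ) ^ k)) →
      Lam k v m B P J α < Am k v m B P c / 2 → Xi k v m B P J α < Am k v m B P c ^ 2 / 4 →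
      ∃ x : ℕ, 1 ≤ x ∧ ∃ z : Fin v → ℕ, (∀ i, 1 ≤ z i) ∧ ∃ y : Fin m → ℕ, (∀ i, 1 ≤ y i) ∧
        n = (x : ℤ) ^ k + ∑ i, (z i : ℤ) ^ k + ∑ i, ⌊α i * (y i : ℝ) ^ k⌋ := by
  have hk0 : 0 < k := by omega
  have hB0 : 0 < B := by omega
  have hKX : 1 ≤ KX k B := Nat.succ_le_of_lt (by unfold KX KK; positivity)
  obtain ⟨c, hc, P₀, hcnt⟩ := hC k (KX k B) (by omega) hKX
  refine ⟨c, hc, P₀, fun P J hJ hPJ hJP n hn1 hn2 α hα hW hL hX => ?_⟩
  have hP : 1 ≤ P := hJ.trans hJP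
  set h := hh k B P with hh'
  have hPk : P ≤ P ^ k := Nat.le_self_pow (by omega) P
  have hJh : J ≤ h := by
    rw [hh']; unfold hh
    calc J ≤ P := hJP
      _ ≤ P ^ k := hPk
      _ ≤ (4 * KX k B ^ k + KX k B) * P ^ k := Nat.le_mul_of_pos_left _ (by positivity)
  obtain ⟨w, hw0, hw1, hw2⟩ := hK h J hJ hJh
  have hQ : QQ k B P = 2 * (h : ℝ) + 1 := rfl
  have hQp := QQ_pos k B P
  set Y := Fintype.piFinset (fun _ : Fin m => Ioc P (2 * P)) with hY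
  set X := Icc 1 (KX k B * P) with hXd
  set Z := Fintype.piFinset (fun _ : Fin v => Icc 1 (KX k B * P)) with hZd
  set mm : ℕ → (Fin v → ℕ) → (Fin m → ℕ) → ℤ :=
    fun x z y => (x : ℤ) ^ k + ∑ i, (z i : ℤ) ^ k + ∑ i, ⌊α i * (y i : ℝ) ^ k⌋ - n with hmm
  -- bounds for the floor sum
  have hfl : ∀ y ∈ Y, 0 ≤ ∑ i, ⌊α i * (y i : ℝ) ^ k⌋ ∧ 4 * ∑ i, ⌊α i * (y i : ℝ) ^ k⌋ ≤ (KK k B : ℤ) * P ^ k := by
    intro y hy
    rw [hY, Fintype.mem_piFinset] at hy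
    constructor
    · refine sum_nonneg fun i _ => Int.floor_nonneg.mpr ?_
      exact mul_nonneg (hα i).1.le (by positivity)
    · have h1 : ∀ i, ⌊α i * (y i : ℝ) ^ k⌋ ≤ (B * (2 * P) ^ k : ℤ) := by
        intro i
        have h2 : (y i : ℝ) ≤ 2 * P := by exact_mod_cast (mem_Ioc.mp (hy i)).2
        have h3 : α i * (y i : ℝ) ^ k ≤ B * (2 * P) ^ k :=
          mul_le_mul (hα i).2 (pow_le_pow_left₀ (by positivity) h2 k) (by positivity) (by positivity)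
        have h4 : (⌊α i * (y i : ℝ) ^ k⌋ : ℝ) ≤ B * (2 * P) ^ k := (Int.floor_le _).trans h3
        exact_mod_cast h4
      have h5 : ∑ i, ⌊α i * (y i : ℝ) ^ k⌋ ≤ ∑ _i : Fin m, (B * (2 * P) ^ k : ℤ) :=
        sum_le_sum fun i _ => h1 i
      rw [sum_const, card_univ, Fintype.card_fin, nsmul_eq_mul] at h5
      have hm2 : (m : ℤ) ≤ 2 * k := by omega
      have h6 : (m : ℤ) * (B * (2 * P) ^ k) ≤ 2 * k * (B * (2 * P) ^ k) :=
        mul_le_mul_of_nonneg_right hm2 (by positivity)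
      calc 4 * ∑ i, ⌊α i * (y i : ℝ) ^ k⌋ ≤ 4 * (2 * k * (B * (2 * P) ^ k)) := by linarith
        _ = (KK k B : ℤ) * P ^ k := by unfold KK; push_cast; rw [mul_pow]; ring
  have hKXK : (KK k B : ℤ) ≤ KX k B := by
    unfold KX
    have : KK k B ≤ 2 ^ (LL k * k) * KK k B := Nat.le_mul_of_pos_left _ (by positivity)
    exact_mod_cast this
  have hPkz : (0 : ℤ) ≤ (P : ℤ) ^ k := by positivity
  have hmb : ∀ x ∈ X, ∀ z ∈ Z, ∀ y ∈ Y, |mm x z y| ≤ 2 * h := by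
    intro x hx z hz y hy
    obtain ⟨f1, f2⟩ := hfl y hy
    have hb : ∀ x : ℕ, x ∈ Icc 1 (KX k B * P) → (x : ℤ) ^ k ≤ (KX k B : ℤ) ^ k * P ^ k := by
      intro x hx
      have hx2 : (x : ℤ) ≤ KX k B * P := by exact_mod_cast (mem_Icc.mp hx).2
      rw [← mul_pow]; exact pow_le_pow_left₀ (by positivity) hx2 k
    have hx3 := hb x hx
    have hx4 : (0 : ℤ) ≤ (x : ℤ) ^ k := by positivity
    have hz1 : ∑ i, (z i : ℤ) ^ k ≤ 2 * ((KX k B : ℤ) ^ k * P ^ k) := by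
      rw [hZd, Fintype.mem_piFinset] at hz
      have h5 : ∑ i, (z i : ℤ) ^ k ≤ ∑ _i : Fin v, ((KX k B : ℤ) ^ k * P ^ k) := sum_le_sum fun i _ => hb _ (hz i)
      rw [sum_const, card_univ, Fintype.card_fin, nsmul_eq_mul] at h5
      have hv2 : (v : ℤ) ≤ 2 := by omega
      exact h5.trans (mul_le_mul_of_nonneg_right hv2 (by positivity))
    have hz2 : 0 ≤ ∑ i, (z i : ℤ) ^ k := sum_nonneg fun i _ => by positivity
    have hh2 : (h : ℤ) = 4 * ((KX k B : ℤ) ^ k * P ^ k) + KX k B * P ^ k := by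
      rw [hh']; unfold hh; push_cast; ring
    have h6 : (KK k B : ℤ) * P ^ k ≤ KX k B * P ^ k := mul_le_mul_of_nonneg_right hKXK hPkz
    have h7 : (0 : ℤ) ≤ (KX k B : ℤ) ^ k * P ^ k := by positivity
    have h8 : (0 : ℤ) ≤ (KK k B : ℤ) * P ^ k := by positivity
    rw [hmm, abs_le]
    constructor <;> simp only <;> linarith
  by_contra hno
  push Not at hno
  have hne : ∀ x ∈ X, ∀ z ∈ Z, ∀ y ∈ Y, mm x z y ≠ 0 := by
    intro x hx z hz y hy h0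
    refine hno x (mem_Icc.mp hx).1 z (fun i => (mem_Icc.mp (Fintype.mem_piFinset.mp hz i)).1) y (fun i => ?_) ?_
    · have := Fintype.mem_piFinset.mp hy i
      have := (mem_Ioc.mp this).1
      omega
    · rw [hmm] at h0; simp only at h0; linarith
  -- the main identity
  have hid : (0 : ℂ) = ((∑ x ∈ X, ∑ z ∈ Z, ∑ y ∈ Y, (∏ i, psi (α i * (y i : ℝ) ^ k)) * w (mm x z y) : ℝ) : ℂ) +
      1 / (2 * h + 1 : ℂ) * ∑ j ∈ Icc (-(h : ℤ)) h, ((min 1 (|(j : ℝ)| / J) : ℝ) : ℂ) *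
        (e (-((j : ℝ) / QQ k B P * n)) *
          (Fx k B P (j / QQ k B P) ^ (v + 1) * ∏ i, S k P (j / QQ k B P) (α i))) := by
    have h1 : (0 : ℂ) = ∑ x ∈ X, ∑ z ∈ Z, ∑ y ∈ Y, ((∏ i, psi (α i * (y i : ℝ) ^ k) : ℝ) : ℂ) *
        (if mm x z y = 0 then (1 : ℂ) else 0) := by
      symm
      refine sum_eq_zero fun x hx => sum_eq_zero fun z hz => sum_eq_zero fun y hy => ?_
      rw [if_neg (hne x hx z hz y hy), mul_zero]
    have h2 : ∑ x ∈ X, ∑ z ∈ Z, ∑ y ∈ Y, ((∏ i, psi (α i * (y i : ℝ) ^ k) : ℝ) : ℂ) *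
        (if mm x z y = 0 then (1 : ℂ) else 0) = ∑ x ∈ X, ∑ z ∈ Z, ∑ y ∈ Y,
          (((∏ i, psi (α i * (y i : ℝ) ^ k)) * w (mm x z y) : ℝ) + 1 / (2 * h + 1 : ℂ) *
            ∑ j ∈ Icc (-(h : ℤ)) h, ((min 1 (|(j : ℝ)| / J) : ℝ) : ℂ) *
              (((∏ i, psi (α i * (y i : ℝ) ^ k) : ℝ) : ℂ) * e (j / QQ k B P * mm x z y))) := by
      refine sum_congr rfl fun x hx => sum_congr rfl fun z hz => sum_congr rfl fun y hy => ?_
      rw [hw2 _ (hmb x hx z hz y hy), mul_add]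
      congr 1
      · push_cast; ring
      · rw [← mul_assoc, mul_comm _ (1 / (2 * h + 1 : ℂ)), mul_assoc, mul_sum]
        congr 1
        refine sum_congr rfl fun j _ => ?_
        rw [hQ]; ring
    rw [h1, h2]
    simp_rw [sum_add_distrib]
    congr 1
    · push_cast; rfl
    · simp_rw [← mul_sum]
      congr 1
      have h3 : ∀ x ∈ X, ∑ z ∈ Z, ∑ y ∈ Y, ∑ j ∈ Icc (-(h : ℤ)) h, ((min 1 (|(j : ℝ)| / J) : ℝ) : ℂ) *
              (((∏ i, psi (α i * (y i : ℝ) ^ k) : ℝ) : ℂ) * e (j / QQ k B P * mm x z y)) =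
          ∑ j ∈ Icc (-(h : ℤ)) h, ∑ z ∈ Z, ∑ y ∈ Y, ((min 1 (|(j : ℝ)| / J) : ℝ) : ℂ) *
              (((∏ i, psi (α i * (y i : ℝ) ^ k) : ℝ) : ℂ) * e (j / QQ k B P * mm x z y)) := by
        intro x _
        have h4 : ∀ z ∈ Z, ∑ y ∈ Y, ∑ j ∈ Icc (-(h : ℤ)) h, ((min 1 (|(j : ℝ)| / J) : ℝ) : ℂ) *
              (((∏ i, psi (α i * (y i : ℝ) ^ k) : ℝ) : ℂ) * e (j / QQ k B P * mm x z y)) =
          ∑ j ∈ Icc (-(h : ℤ)) h, ∑ y ∈ Y, ((min 1 (|(j : ℝ)| / J) : ℝ) : ℂ) *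
              (((∏ i, psi (α i * (y i : ℝ) ^ k) : ℝ) : ℂ) * e (j / QQ k B P * mm x z y)) := fun z _ => sum_comm
        rw [sum_congr rfl h4, sum_comm]
      rw [sum_congr rfl h3, sum_comm]
      refine sum_congr rfl fun j _ => ?_
      rw [← factor k v m B P α n (j / QQ k B P)]
      simp_rw [mul_sum]
      rfl
  -- lower bound of the main term
  set Wr : ℝ := ∑ x ∈ X, ∑ z ∈ Z, ∑ y ∈ Y, (∏ i, psi (α i * (y i : ℝ) ^ k)) * w (mm x z y) with hWr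
  have hlow : Am k v m B P c ≤ Wr := by
    have hsw : Wr = ∑ y ∈ Y, ∑ z ∈ Z, ∑ x ∈ X, (∏ i, psi (α i * (y i : ℝ) ^ k)) * w (mm x z y) := by
      rw [hWr]
      have h4 : ∀ x ∈ X, ∑ z ∈ Z, ∑ y ∈ Y, (∏ i, psi (α i * (y i : ℝ) ^ k)) * w (mm x z y) =
          ∑ y ∈ Y, ∑ z ∈ Z, (∏ i, psi (α i * (y i : ℝ) ^ k)) * w (mm x z y) := fun x _ => sum_comm
      rw [sum_congr rfl h4, sum_comm]
      refine sum_congr rfl fun y _ => sum_comm
    rw [hsw]
    have hJR : (0 : ℝ) < J := by exact_mod_cast hJ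
    have h1 : ∀ y ∈ Y, (∏ i, psi (α i * (y i : ℝ) ^ k)) * (c * (P : ℝ) ^ (v + 1) / (4 * QQ k B P)) ≤
        ∑ z ∈ Z, ∑ x ∈ X, (∏ i, psi (α i * (y i : ℝ) ^ k)) * w (mm x z y) := by
      intro y hy
      simp_rw [← mul_sum]
      refine mul_le_mul_of_nonneg_left ?_ (prod_nonneg fun i _ => psi_nonneg _)
      obtain ⟨f1, f2⟩ := hfl y hy
      set Z' := Fintype.piFinset (fun _ : Fin v => Icc 1 P) with hZ'
      have hZZ : Z' ⊆ Z := by
        intro z hz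
        rw [hZ', Fintype.mem_piFinset] at hz
        rw [hZd, Fintype.mem_piFinset]
        intro i
        have := hz i
        rw [mem_Icc] at this ⊢
        exact ⟨this.1, this.2.trans (Nat.le_mul_of_pos_left _ hKX)⟩
      have hone : ∀ z ∈ Z', c * P / (4 * QQ k B P) ≤ ∑ x ∈ X, w (mm x z y) := by
        intro z hz
        rw [hZ', Fintype.mem_piFinset] at hz
        have hzs : ∑ i, (z i : ℤ) ^ k ≤ 2 * (P : ℤ) ^ k := by
          have h5 : ∑ i, (z i : ℤ) ^ k ≤ ∑ _i : Fin v, ((P : ℤ) ^ k) :=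
            sum_le_sum fun i _ => pow_le_pow_left₀ (by positivity) (by exact_mod_cast (mem_Icc.mp (hz i)).2) k
          rw [sum_const, card_univ, Fintype.card_fin, nsmul_eq_mul] at h5
          have hv2 : (v : ℤ) ≤ 2 := by omega
          exact h5.trans (mul_le_mul_of_nonneg_right hv2 (by positivity))
        have hz2 : 0 ≤ ∑ i, (z i : ℤ) ^ k := sum_nonneg fun i _ => by positivity
        have hr1 : (P : ℤ) ^ k ≤ n - ∑ i, (z i : ℤ) ^ k - ∑ i, ⌊α i * (y i : ℝ) ^ k⌋ := by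
          have : (8 : ℤ) ≤ KK k B := by
            unfold KK
            have : 8 * 1 * 1 * 1 ≤ 8 * k * B * 2 ^ k := by gcongr <;> first | omega | exact Nat.one_le_two_pow
            exact_mod_cast this
          have h3 : (8 : ℤ) * P ^ k ≤ KK k B * P ^ k := mul_le_mul_of_nonneg_right this hPkz
          linarith
        have hr2 : n - ∑ i, (z i : ℤ) ^ k - ∑ i, ⌊α i * (y i : ℝ) ^ k⌋ ≤ (KX k B : ℤ) * (P : ℤ) ^ k := by linarith
        have hcount := hcnt P J hPJ hJ _ hr1 hr2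
        set r : ℤ := n - ∑ i, (z i : ℤ) ^ k - ∑ i, ⌊α i * (y i : ℝ) ^ k⌋ with hr
        calc c * P / (4 * QQ k B P) = c * (P / J : ℝ) * (J / (4 * (2 * h + 1))) := by
              rw [hQ]; field_simp
          _ ≤ (((Icc 1 (KX k B * P)).filter (fun x : ℕ => (8 * J : ℤ) *
              |(x : ℤ) ^ k - r| ≤ (P : ℤ) ^ k)).card : ℝ) * (J / (4 * (2 * h + 1))) :=
              mul_le_mul_of_nonneg_right hcount (by positivity)
          _ = ∑ x ∈ (Icc 1 (KX k B * P)).filter (fun x : ℕ => (8 * J : ℤ) *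
              |(x : ℤ) ^ k - r| ≤ (P : ℤ) ^ k), ((J : ℝ) / (4 * (2 * h + 1))) := by
              rw [sum_const, nsmul_eq_mul]
          _ ≤ ∑ x ∈ (Icc 1 (KX k B * P)).filter (fun x : ℕ => (8 * J : ℤ) *
              |(x : ℤ) ^ k - r| ≤ (P : ℤ) ^ k), w (mm x z y) := by
              refine sum_le_sum fun x hx => ?_
              have hx2 := (mem_filter.mp hx).2
              apply hw1
              have e1 : (x : ℤ) ^ k - r = mm x z y := by rw [hmm, hr]; ring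
              rw [e1] at hx2
              refine hx2.trans ?_
              have hh3 : P ^ k ≤ h := by
                rw [hh']; unfold hh; exact Nat.le_mul_of_pos_left _ (by positivity)
              have hh4 : (P : ℤ) ^ k ≤ h := by exact_mod_cast hh3
              linarith
          _ ≤ ∑ x ∈ X, w (mm x z y) := sum_le_sum_of_subset_of_nonneg (filter_subset _ _) (fun x _ _ => hw0 _)
      calc c * (P : ℝ) ^ (v + 1) / (4 * QQ k B P) = ∑ _z ∈ Z', c * P / (4 * QQ k B P) := by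
            rw [sum_const, hZ', Fintype.card_piFinset, prod_const, card_univ, Fintype.card_fin, Nat.card_Icc,
              Nat.add_sub_cancel, nsmul_eq_mul]
            push_cast; ring
        _ ≤ ∑ z ∈ Z', ∑ x ∈ X, w (mm x z y) := sum_le_sum hone
        _ ≤ ∑ z ∈ Z, ∑ x ∈ X, w (mm x z y) :=
            sum_le_sum_of_subset_of_nonneg hZZ (fun z _ _ => sum_nonneg fun x _ => hw0 _)
    calc Am k v m B P c = c * (P : ℝ) ^ (v + 1) / (4 * QQ k B P) * ∏ _i : Fin m, (P / 4 : ℝ) := by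
          unfold Am; rw [prod_const, card_univ, Fintype.card_fin]
      _ ≤ c * (P : ℝ) ^ (v + 1) / (4 * QQ k B P) * ∏ i : Fin m, ∑ y ∈ Ioc P (2 * P), psi (α i * (y : ℝ) ^ k) := by
          refine mul_le_mul_of_nonneg_left ?_ (by positivity)
          exact prod_le_prod (fun i _ => by positivity) (fun i _ => hW i)
      _ = ∑ y ∈ Y, (∏ i, psi (α i * (y i : ℝ) ^ k)) * (c * (P : ℝ) ^ (v + 1) / (4 * QQ k B P)) := by
          rw [Finset.prod_univ_sum, ← sum_mul]; ring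
      _ ≤ _ := sum_le_sum h1
  -- upper bound of the error
  set Er : ℂ := 1 / (2 * h + 1 : ℂ) * ∑ j ∈ Icc (-(h : ℤ)) h, ((min 1 (|(j : ℝ)| / J) : ℝ) : ℂ) *
        (e (-((j : ℝ) / QQ k B P * n)) *
          (Fx k B P (j / QQ k B P) ^ (v + 1) * ∏ i, S k P (j / QQ k B P) (α i))) with hEr
  have hWE : Wr ≤ ‖Er‖ := by
    have : (Wr : ℂ) = -Er := by linear_combination -hid
    have h1 : ‖(Wr : ℂ)‖ = ‖Er‖ := by rw [this, norm_neg]
    rw [← h1, Complex.norm_real]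
    exact le_abs_self _
  set g : ℤ → ℝ := fun j => ‖Fx k B P (j / QQ k B P)‖ ^ (v + 1) * ∏ i, ‖S k P (j / QQ k B P) (α i)‖ with hg
  have hg0 : ∀ j, 0 ≤ g j := fun j => by rw [hg]; positivity
  have hE1 : ‖Er‖ ≤ 1 / QQ k B P * ∑ j ∈ Icc (-(h : ℤ)) h, min 1 (|(j : ℝ)| / J) * g j := by
    rw [hEr, norm_mul]
    have h1 : ‖(1 / (2 * h + 1 : ℂ))‖ = 1 / QQ k B P := by
      rw [hQ, norm_div, norm_one]
      congr 1
      rw [show (2 * h + 1 : ℂ) = ((2 * (h : ℝ) + 1 : ℝ) : ℂ) by push_cast; ring, Complex.norm_real]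
      exact abs_of_pos (by positivity)
    rw [h1]
    refine mul_le_mul_of_nonneg_left ?_ (by positivity)
    refine (norm_sum_le _ _).trans (sum_le_sum fun j _ => ?_)
    rw [norm_mul, norm_mul, norm_e, one_mul, norm_mul, norm_pow, norm_prod, Complex.norm_real]
    refine mul_le_mul_of_nonneg_right ?_ (hg0 j)
    rw [Real.norm_of_nonneg (le_min zero_le_one (by positivity))]
  have hJR : (0 : ℝ) < J := by exact_mod_cast hJ
  have hE2 : 1 / QQ k B P * ∑ j ∈ Icc (-(h : ℤ)) h, min 1 (|(j : ℝ)| / J) * g j ≤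
      Lam k v m B P J α + 1 / QQ k B P * ∑ j ∈ (Icc (-(h : ℤ)) h).filter (fun j : ℤ => (J : ℝ) ≤ |(j : ℝ)|), g j := by
    unfold Lam
    rw [← hh', ← mul_add]
    refine mul_le_mul_of_nonneg_left ?_ (by positivity)
    rw [← sum_filter_add_sum_filter_not (Icc (-(h : ℤ)) h) (fun j : ℤ => |(j : ℝ)| < J)]
    refine add_le_add (sum_le_sum fun j _ => ?_) ?_
    · refine mul_le_mul (min_le_right _ _) ?_ (hg0 j) (by positivity)
      exact mul_le_mul_of_nonneg_right (pow_le_pow_left₀ (norm_nonneg _) (norm_Fx_le k B P _) _)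
        (prod_nonneg fun i _ => norm_nonneg _)
    · simp_rw [not_lt]
      refine sum_le_sum fun j _ => ?_
      calc min 1 (|(j : ℝ)| / J) * g j ≤ 1 * g j := mul_le_mul_of_nonneg_right (min_le_left _ _) (hg0 j)
        _ = g j := one_mul _
  have hE3 : (1 / QQ k B P * ∑ j ∈ (Icc (-(h : ℤ)) h).filter (fun j : ℤ => (J : ℝ) ≤ |(j : ℝ)|), g j) ^ 2 ≤
      Xi k v m B P J α := by
    set s := (Icc (-(h : ℤ)) h).filter (fun j : ℤ => (J : ℝ) ≤ |(j : ℝ)|) with hs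
    have h1 : (∑ j ∈ s, g j) ^ 2 ≤ s.card * ∑ j ∈ s, g j ^ 2 := sq_sum_le_card_mul_sum_sq
    have h2 : (s.card : ℝ) ≤ QQ k B P := by
      have h3 : s.card ≤ 2 * h + 1 := by
        refine (card_filter_le _ _).trans ?_
        rw [Int.card_Icc]; omega
      rw [hQ]; exact_mod_cast h3
    have h4 : Xi k v m B P J α = 1 / QQ k B P * ∑ j ∈ s, g j ^ 2 := by
      unfold Xi
      congr 1
      refine sum_congr rfl fun j _ => ?_
      rw [hg]; simp only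
      rw [mul_pow, ← pow_mul, mul_comm (v + 1) 2, prod_pow]
    have h5 : 0 ≤ ∑ j ∈ s, g j ^ 2 := sum_nonneg fun j _ => sq_nonneg _
    rw [h4, mul_pow]
    calc (1 / QQ k B P) ^ 2 * (∑ j ∈ s, g j) ^ 2 ≤ (1 / QQ k B P) ^ 2 * (QQ k B P * ∑ j ∈ s, g j ^ 2) := by
          refine mul_le_mul_of_nonneg_left (h1.trans (mul_le_mul_of_nonneg_right h2 h5)) (by positivity)
      _ = 1 / QQ k B P * ∑ j ∈ s, g j ^ 2 := by field_simp
  set Zr : ℝ := 1 / QQ k B P * ∑ j ∈ (Icc (-(h : ℤ)) h).filter (fun j : ℤ => (J : ℝ) ≤ |(j : ℝ)|), g j with hZr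
  have hZ0 : 0 ≤ Zr := mul_nonneg (by positivity) (sum_nonneg fun j _ => hg0 j)
  have hA0 : 0 ≤ Am k v m B P c := by unfold Am; positivity
  have hZ2 : Zr < Am k v m B P c / 2 := by
    have h1 : Zr ^ 2 < (Am k v m B P c / 2) ^ 2 := by
      calc Zr ^ 2 ≤ Xi k v m B P J α := hE3
        _ < Am k v m B P c ^ 2 / 4 := hX
        _ = (Am k v m B P c / 2) ^ 2 := by ring
    exact lt_of_pow_lt_pow_left₀ 2 (by positivity) h1
  linarith

end Pool.Agent.Helper11W
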