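import Pool.Agent.Helper11W.Stm2
import Pool.Agent.Helper85.HP.B5

/-!
# Moments of the exponential sum over k-th powers
-/

set_option autoImplicit false

namespace Pool.Agent.Helper11W.Ene

open Finset
open Pool.Agent.Helper11W
open Pool.Agent.Helper85.HP (nrg moment IsPol hua)
open Pool.Agent.H807R2.Dav (ee)

theorem e_ee (x : ℝ) : e x = ee x := by
  unfold e ee
  congr 1
  ring

theorem e_add' (x y : ℝ) : e (x + y) = e x * e y := by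
  unfold e
  rw [← Complex.exp_add]
  congr 1
  push_cast
  ring

theorem norm_e' (x : ℝ) : ‖e x‖ = 1 := by
  unfold e
  have : (2 * Real.pi * x * Complex.I : ℂ) = ((2 * Real.pi * x : ℝ) : ℂ) * Complex.I := by push_cast; ring
  rw [this, Complex.norm_exp_ofReal_mul_I]

/-- the moments are bounded by the number of solutions -/
theorem mean_le (k N h r : ℕ) (hr4 : r ≤ 4) (hh : 2 * N ^ k ≤ h) :
    ∑ j ∈ Icc (-(h : ℤ)) h, ‖∑ x ∈ Icc 1 N, e (j / (2 * (h : ℝ) + 1) * (x : ℝ) ^ k)‖ ^ (2 * r) ≤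
      (2 * (h : ℝ) + 1) * nrg (Icc (1 : ℤ) N) (fun x => x ^ k) r := by
  have hm : 0 < 2 * h + 1 := by omega
  have hmR : ((2 * h + 1 : ℕ) : ℝ) = 2 * (h : ℝ) + 1 := by push_cast; ring
  have h1 := moment (Icc (1 : ℤ) N) (fun x => x ^ k)
    (fun x => e (-(h : ℝ) / (2 * (h : ℝ) + 1) * (x : ℝ) ^ k)) (fun x _ => (norm_e' _).le) r hm (by
      intro p hp p' hp' hd
      rw [Fintype.mem_piFinset] at hp hp'
      have hb : ∀ q : Fin r → ℤ, (∀ i, q i ∈ Icc (1 : ℤ) N) →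
          0 ≤ ∑ i, (q i) ^ k ∧ ∑ i, (q i) ^ k ≤ 2 * h := by
        intro q hq
        have h2 : ∀ i, 0 ≤ (q i) ^ k ∧ (q i) ^ k ≤ (N : ℤ) ^ k := by
          intro i
          have h3 := mem_Icc.1 (hq i)
          exact ⟨pow_nonneg (by linarith) _, pow_le_pow_left₀ (by linarith) h3.2 _⟩
        refine ⟨sum_nonneg fun i _ => (h2 i).1, ?_⟩
        have h4 : ∑ i, (q i) ^ k ≤ ∑ _i : Fin r, (N : ℤ) ^ k := sum_le_sum fun i _ => (h2 i).2
        rw [sum_const, card_univ, Fintype.card_fin, nsmul_eq_mul] at h4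
        have h5 : (r : ℤ) * (N : ℤ) ^ k ≤ 4 * (N : ℤ) ^ k :=
          mul_le_mul_of_nonneg_right (by exact_mod_cast hr4) (by positivity)
        have h6 : (2 * (N : ℤ) ^ k) ≤ h := by exact_mod_cast hh
        linarith
      have a := hb p hp
      have b := hb p' hp'
      have h7 : ∑ i, (p i) ^ k - ∑ i, (p' i) ^ k = 0 := by
        refine Int.eq_zero_of_abs_lt_dvd hd ?_
        rw [abs_lt]
        push_cast
        constructor <;> linarith [a.1, a.2, b.1, b.2]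
      linarith)
  rw [hmR] at h1
  refine le_trans (le_of_eq ?_) h1
  refine Finset.sum_nbij' (fun j => (j + h).toNat) (fun i => (i : ℤ) - h) ?_ ?_ ?_ ?_ ?_
  · intro j hj
    simp only [mem_Icc] at hj
    simp only [mem_range]
    omega
  · intro i hi
    simp only [mem_range] at hi
    simp only [mem_Icc]
    omega
  · intro j hj
    simp only [mem_Icc] at hj
    omega
  · intro i hi
    omega
  · intro j hj
    simp only [mem_Icc] at hj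
    congr 2
    refine Finset.sum_nbij' (fun x : ℕ => (x : ℤ)) (fun x : ℤ => x.toNat) ?_ ?_ ?_ ?_ ?_
    · intro x hx
      simp only [mem_Icc] at hx ⊢
      omega
    · intro x hx
      simp only [mem_Icc] at hx ⊢
      omega
    · intro x hx
      simp
    · intro x hx
      simp only [mem_Icc] at hx
      omega
    · intro x _
      rw [← e_ee, ← e_add']
      congr 1
      have h8 : (((j + h).toNat : ℕ) : ℤ) = j + h := Int.toNat_of_nonneg (by omega)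
      have h9 : (((((x : ℤ) ^ k * (((j + h).toNat : ℕ) : ℤ) : ℤ)) : ℝ)) = (x : ℝ) ^ k * (j + h) := by
        rw [h8]
        push_cast
        ring
      have h10 : (2 * (h : ℝ) + 1) ≠ 0 := by positivity
      show _ = -(h : ℝ) / (2 * (h : ℝ) + 1) * (((x : ℤ)) : ℝ) ^ k +
        ((((x : ℤ) ^ k * (((j + h).toNat : ℕ) : ℤ) : ℤ)) : ℝ) / (2 * (h : ℝ) + 1)
      rw [h9]
      push_cast
      field_simp
      ring

/-- Hua's inequality for the k-th powers -/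
theorem nrg_bd (k K j : ℕ) (hj : j + 1 ≤ k) (hK : 1 ≤ K) {C2 : ℝ} (hC2 : 1 ≤ C2)
    (hdiv : ∀ n : ℕ, 1 ≤ n → (n.divisors.card : ℝ) ≤ C2 * (n : ℝ) ^ (1 / (6 * k : ℝ))) :
    ∃ A : ℝ, 1 ≤ A ∧ ∀ P : ℕ, 1 ≤ P →
      (nrg (Icc (1 : ℤ) ((K * P : ℕ) : ℤ)) (fun x => x ^ k) (2 ^ j) : ℝ) ≤
        A * (C2 * (2 * (K * P) : ℝ) ^ (1 / 6 : ℝ)) ^ j * ((K * P : ℕ) : ℝ) ^ (2 ^ (j + 1) - (j + 1)) := by
  obtain ⟨A, hA, hA2⟩ := hua k j hj
  refine ⟨A, hA, fun P hP => ?_⟩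
  have hKP : 1 ≤ K * P := Nat.mul_pos hK hP
  have hKPr : (1 : ℝ) ≤ (K : ℝ) * P := by exact_mod_cast hKP
  have hk0 : (0 : ℝ) < k := by
    have : 0 < k := by omega
    exact_mod_cast this
  have hT : 1 ≤ C2 * (2 * (K * P) : ℝ) ^ (1 / 6 : ℝ) := by
    refine one_le_mul_of_one_le_of_one_le hC2 (Real.one_le_rpow (by linarith) (by norm_num))
  refine hA2 (fun x => x ^ k) ⟨Polynomial.X ^ k, Polynomial.natDegree_X_pow k, fun x => by simp⟩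
    (K * P) hKP (Icc (1 : ℤ) ((K * P : ℕ) : ℤ)) ?_ ?_ ((K * P) ^ k) ?_ _ hT ?_
  · intro x hx y hy
    rw [mem_Icc] at hx hy
    rw [mem_Ioo]
    constructor <;> linarith [hx.1, hx.2, hy.1, hy.2]
  · rw [Int.card_Icc]
    omega
  · intro x hx
    rw [mem_Icc] at hx
    show |x ^ k| ≤ _
    rw [abs_of_nonneg (pow_nonneg (by linarith) _)]
    push_cast
    refine pow_le_pow_left₀ (by linarith) ?_ _
    have := hx.2
    push_cast at this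
    exact this
  · intro D hD hDB
    have h2 : 1 ≤ D.natAbs := Int.natAbs_pos.2 hD
    refine (hdiv _ h2).trans ?_
    refine mul_le_mul_of_nonneg_left ?_ (by linarith)
    have h3 : (D.natAbs : ℝ) ≤ (2 * (K * P) : ℝ) ^ k := by
      rw [Int.abs_eq_natAbs] at hDB
      have h4 : (D.natAbs : ℝ) ≤ 2 ^ k * ((K * P : ℕ) : ℝ) ^ k := by exact_mod_cast hDB
      rw [mul_pow]
      push_cast at h4
      exact h4
    calc (D.natAbs : ℝ) ^ (1 / (6 * k : ℝ)) ≤ ((2 * (K * P) : ℝ) ^ k) ^ (1 / (6 * k : ℝ)) :=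
          Real.rpow_le_rpow (Nat.cast_nonneg _) h3 (by positivity)
      _ = (2 * (K * P) : ℝ) ^ (1 / 6 : ℝ) := by
          rw [← Real.rpow_natCast, ← Real.rpow_mul (by positivity)]
          congr 1
          field_simp

theorem energy : EnergyStm := by
  intro k K v hv hvk hK
  have hk0 : (0 : ℝ) < k := by
    have : 0 < k := by omega
    exact_mod_cast this
  obtain ⟨C0, hC0, hC1⟩ := Pool.Agent.H510R2.divisor_bound (1 / (6 * k : ℝ)) (by positivity)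
  obtain ⟨C2, hC2⟩ : ∃ C2 : ℝ, C2 = max C0 1 := ⟨_, rfl⟩
  have hC21 : 1 ≤ C2 := by rw [hC2]; exact le_max_right _ _
  have hC20 : C0 ≤ C2 := by rw [hC2]; exact le_max_left _ _
  have hdiv : ∀ n : ℕ, 1 ≤ n → (n.divisors.card : ℝ) ≤ C2 * (n : ℝ) ^ (1 / (6 * k : ℝ)) := fun n hn =>
    (hC1 n hn).trans (mul_le_mul_of_nonneg_right hC20 (by positivity))
  have hKR : (1 : ℝ) ≤ K := by exact_mod_cast hK
  -- the mean of order `2 r`
  obtain ⟨M, hM⟩ : ∃ M : ℕ → ℕ → ℕ → ℝ, M = fun (r P h : ℕ) => 1 / (2 * (h : ℝ) + 1) *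
      ∑ j ∈ Icc (-(h : ℤ)) h, ‖∑ x ∈ Icc 1 (K * P), e (j / (2 * (h : ℝ) + 1) * (x : ℝ) ^ k)‖ ^ (2 * r) :=
    ⟨_, rfl⟩
  have hM0 : ∀ r P h, 0 ≤ M r P h := by
    intro r P h
    rw [hM]
    positivity
  have hMn : ∀ r P h : ℕ, r ≤ 4 → 2 * (K * P) ^ k ≤ h →
      M r P h ≤ nrg (Icc (1 : ℤ) ((K * P : ℕ) : ℤ)) (fun x => x ^ k) r := by
    intro r P h hr hh
    have h1 := mean_le k (K * P) h r hr hh
    have h2 : (0 : ℝ) < 2 * (h : ℝ) + 1 := by positivity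
    rw [hM]
    show 1 / (2 * (h : ℝ) + 1) * _ ≤ _
    rw [one_div, inv_mul_le_iff₀ h2]
    exact h1
  have hT6 : ∀ P : ℕ, 1 ≤ P → 1 ≤ C2 * (2 * (K * P) : ℝ) ^ (1 / 6 : ℝ) ∧
      (C2 * (2 * (K * P) : ℝ) ^ (1 / 6 : ℝ)) ^ 6 = C2 ^ 6 * (2 * (K * P)) := by
    intro P hP
    have hPR : (1 : ℝ) ≤ P := by exact_mod_cast hP
    have hKP : (1 : ℝ) ≤ (K : ℝ) * P := one_le_mul_of_one_le_of_one_le hKR hPR
    refine ⟨one_le_mul_of_one_le_of_one_le hC21 (Real.one_le_rpow (by linarith) (by norm_num)), ?_⟩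
    rw [mul_pow, ← Real.rpow_natCast ((2 * (K * P) : ℝ) ^ (1 / 6 : ℝ)), ← Real.rpow_mul (by positivity)]
    norm_num
  obtain rfl | rfl | rfl : v = 0 ∨ v = 1 ∨ v = 2 := by omega
  · obtain ⟨A, hA, hA2⟩ := nrg_bd k K 0 (by omega) hK hC21 hdiv
    refine ⟨(A * K) ^ 4, by positivity, fun P h hP hh => ?_⟩
    have hPR : (1 : ℝ) ≤ P := by exact_mod_cast hP
    have h1 := (hMn 1 P h (by norm_num) hh).trans (by simpa using hA2 P hP)
    have h2 : M 1 P h ≤ A * K * P := by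
      refine h1.trans (le_of_eq ?_)
      ring
    have e1 : (1 / (2 * (h : ℝ) + 1) * ∑ j ∈ Icc (-(h : ℤ)) h,
        ‖∑ x ∈ Icc 1 (K * P), e (j / (2 * (h : ℝ) + 1) * (x : ℝ) ^ k)‖ ^ (2 * (0 + 1))) = M 1 P h := by
      rw [hM]
    rw [e1]
    have h3 : M 1 P h ^ 4 ≤ (A * K * P) ^ 4 := pow_le_pow_left₀ (hM0 _ _ _) h2 4
    calc M 1 P h ^ 4 * P ≤ (A * K * P) ^ 4 * P := mul_le_mul_of_nonneg_right h3 (by linarith)
      _ = (A * K) ^ 4 * (P : ℝ) ^ 5 := by ring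
      _ ≤ (A * K) ^ 4 * (P : ℝ) ^ (4 * (0 + 2)) := by
          refine mul_le_mul_of_nonneg_left (pow_le_pow_right₀ hPR (by norm_num)) (by positivity)
  · obtain ⟨A, hA, hA2⟩ := nrg_bd k K 1 (by omega) hK hC21 hdiv
    refine ⟨A ^ 4 * K ^ 9 * 2 * C2 ^ 6, by positivity, fun P h hP hh => ?_⟩
    have hPR : (1 : ℝ) ≤ P := by exact_mod_cast hP
    obtain ⟨hT1, hT⟩ := hT6 P hP
    obtain ⟨T, hTd⟩ : ∃ T : ℝ, T = C2 * (2 * (K * P) : ℝ) ^ (1 / 6 : ℝ) := ⟨_, rfl⟩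
    have h1 := (hMn 2 P h (by norm_num) hh).trans (by simpa using hA2 P hP)
    rw [← one_div, ← hTd] at h1
    rw [← hTd] at hT1 hT
    have e1 : (1 / (2 * (h : ℝ) + 1) * ∑ j ∈ Icc (-(h : ℤ)) h,
        ‖∑ x ∈ Icc 1 (K * P), e (j / (2 * (h : ℝ) + 1) * (x : ℝ) ^ k)‖ ^ (2 * (1 + 1))) = M 2 P h := by
      rw [hM]
    rw [e1]
    have h3 : M 2 P h ^ 4 ≤ (A * T * ((K : ℝ) * P) ^ 2) ^ 4 := pow_le_pow_left₀ (hM0 _ _ _) h1 4
    have h4 : T ^ 4 ≤ C2 ^ 6 * (2 * (K * P)) := by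
      rw [← hT]
      exact pow_le_pow_right₀ hT1 (by norm_num)
    calc M 2 P h ^ 4 * P ≤ (A * T * ((K : ℝ) * P) ^ 2) ^ 4 * P := mul_le_mul_of_nonneg_right h3 (by linarith)
      _ = A ^ 4 * K ^ 8 * (P : ℝ) ^ 9 * T ^ 4 := by ring
      _ ≤ A ^ 4 * K ^ 8 * (P : ℝ) ^ 9 * (C2 ^ 6 * (2 * (K * P))) :=
          mul_le_mul_of_nonneg_left h4 (by positivity)
      _ = A ^ 4 * K ^ 9 * 2 * C2 ^ 6 * (P : ℝ) ^ 10 := by ring
      _ ≤ A ^ 4 * K ^ 9 * 2 * C2 ^ 6 * (P : ℝ) ^ (4 * (1 + 2)) := by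
          refine mul_le_mul_of_nonneg_left (pow_le_pow_right₀ hPR (by norm_num)) (by positivity)
  · obtain ⟨A, hA, hA2⟩ := nrg_bd k K 1 (by omega) hK hC21 hdiv
    obtain ⟨A', hA', hA2'⟩ := nrg_bd k K 2 (by omega) hK hC21 hdiv
    refine ⟨(A * A') ^ 2 * K ^ 15 * 2 * C2 ^ 6, by positivity, fun P h hP hh => ?_⟩
    have hPR : (1 : ℝ) ≤ P := by exact_mod_cast hP
    obtain ⟨hT1, hT⟩ := hT6 P hP
    obtain ⟨T, hTd⟩ : ∃ T : ℝ, T = C2 * (2 * (K * P) : ℝ) ^ (1 / 6 : ℝ) := ⟨_, rfl⟩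
    have h1 := (hMn 2 P h (by norm_num) hh).trans (by simpa using hA2 P hP)
    have h2 := (hMn 4 P h (by norm_num) hh).trans (by simpa using hA2' P hP)
    rw [← one_div, ← hTd] at h1 h2
    rw [← hTd] at hT1 hT
    have e1 : (1 / (2 * (h : ℝ) + 1) * ∑ j ∈ Icc (-(h : ℤ)) h,
        ‖∑ x ∈ Icc 1 (K * P), e (j / (2 * (h : ℝ) + 1) * (x : ℝ) ^ k)‖ ^ (2 * (2 + 1))) = M 3 P h := by
      rw [hM]
    rw [e1]
    have h3 : M 3 P h ^ 2 ≤ M 2 P h * M 4 P h := by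
      rw [hM]
      show (1 / (2 * (h : ℝ) + 1) * _) ^ 2 ≤ (1 / (2 * (h : ℝ) + 1) * _) * (1 / (2 * (h : ℝ) + 1) * _)
      have h5 := Finset.sum_mul_sq_le_sq_mul_sq (Icc (-(h : ℤ)) h)
        (fun j : ℤ => ‖∑ x ∈ Icc 1 (K * P), e (j / (2 * (h : ℝ) + 1) * (x : ℝ) ^ k)‖ ^ 2)
        (fun j : ℤ => ‖∑ x ∈ Icc 1 (K * P), e (j / (2 * (h : ℝ) + 1) * (x : ℝ) ^ k)‖ ^ 4)
      simp only [← pow_mul, ← pow_add] at h5
      have h6 : (0 : ℝ) ≤ (1 / (2 * (h : ℝ) + 1)) ^ 2 := by positivity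
      calc _ = (1 / (2 * (h : ℝ) + 1)) ^ 2 * (∑ j ∈ Icc (-(h : ℤ)) h,
          ‖∑ x ∈ Icc 1 (K * P), e (j / (2 * (h : ℝ) + 1) * (x : ℝ) ^ k)‖ ^ (2 + 4)) ^ 2 := by
            rw [mul_pow]
        _ ≤ (1 / (2 * (h : ℝ) + 1)) ^ 2 * _ := mul_le_mul_of_nonneg_left h5 h6
        _ = _ := by ring
    have h4 : M 3 P h ^ 2 ≤ (A * T * ((K : ℝ) * P) ^ 2) * (A' * T ^ 2 * ((K : ℝ) * P) ^ 5) :=
      h3.trans (mul_le_mul h1 h2 (hM0 _ _ _) (by positivity))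
    have h5 : M 3 P h ^ 4 ≤ ((A * T * ((K : ℝ) * P) ^ 2) * (A' * T ^ 2 * ((K : ℝ) * P) ^ 5)) ^ 2 := by
      calc M 3 P h ^ 4 = (M 3 P h ^ 2) ^ 2 := by ring
        _ ≤ _ := pow_le_pow_left₀ (sq_nonneg _) h4 2
    calc M 3 P h ^ 4 * P ≤ ((A * T * ((K : ℝ) * P) ^ 2) * (A' * T ^ 2 * ((K : ℝ) * P) ^ 5)) ^ 2 * P :=
          mul_le_mul_of_nonneg_right h5 (by linarith)
      _ = (A * A') ^ 2 * K ^ 14 * (P : ℝ) ^ 15 * T ^ 6 := by ring
      _ = (A * A') ^ 2 * K ^ 15 * 2 * C2 ^ 6 * (P : ℝ) ^ (4 * (2 + 2)) := by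
          rw [hT]; ring

end Pool.Agent.Helper11W.Ene

namespace Pool.Agent.Helper11W

theorem energy : EnergyStm := Ene.energy

end Pool.Agent.Helper11W
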