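import Mathlib

/-!
# Sums of one k-th power and 2k integer parts of multiples of k-th powers: definitions and statements
-/

set_option autoImplicit false

namespace Pool.Agent.Helper11W

open MeasureTheory Finset

/-- `e(x) = exp(2 π i x)` -/
noncomputable def e (x : ℝ) : ℂ := Complex.exp (2 * Real.pi * x * Complex.I)

/-- `T(θ, α) = ∑_{P < y ≤ 2P} e(θ α y^k)` -/
noncomputable def T (k P : ℕ) (θ α : ℝ) : ℂ := ∑ y ∈ Ioc P (2 * P), e (θ * (α * (y : ℝ) ^ k))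

/-- `S(t, α) = ∑_{P < y ≤ 2P} sin²(π α y^k) e(t ⌊α y^k⌋)` -/
noncomputable def S (k P : ℕ) (t α : ℝ) : ℂ :=
  ∑ y ∈ Ioc P (2 * P), ((Real.sin (Real.pi * (α * (y : ℝ) ^ k)) ^ 2 : ℝ) : ℂ) * e (t * ⌊α * (y : ℝ) ^ k⌋)

/-- Fourier expansion of `sin²(πu) e(t⌊u⌋)`. -/
def FourierStm : Prop :=
  ∃ C₀ : ℝ, 0 < C₀ ∧ ∀ t : ℝ, |t| ≤ 1 / 2 → ∃ c : ℤ → ℂ, Summable (fun h => ‖c h‖) ∧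
    ∑' h, ‖c h‖ ≤ C₀ ∧
    ∀ u : ℝ, HasSum (fun h : ℤ => c h * e ((t + h) * u))
      (((Real.sin (Real.pi * u) ^ 2 : ℝ) : ℂ) * e (t * ⌊u⌋))

/-- Mean square of `T`. -/
def TStm : Prop :=
  ∀ (k : ℕ) (B : ℝ), 1 ≤ k → 1 ≤ B → ∃ C : ℝ, 0 < C ∧ ∀ P : ℕ, 1 ≤ P → ∀ θ : ℝ, θ ≠ 0 →
    ∫ α in Set.Ioc 0 B, ‖T k P θ α‖ ^ 2 ≤ C * P * (1 + 1 / (|θ| * (P : ℝ) ^ (k - 1)))

/-- Mean square of `S`. -/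
def SStm : Prop :=
  ∀ (k : ℕ) (B : ℝ), 1 ≤ k → 1 ≤ B → ∃ C : ℝ, 0 < C ∧ ∀ P : ℕ, 1 ≤ P → ∀ t : ℝ, t ≠ 0 → |t| ≤ 1 / 2 →
    ∫ α in Set.Ioc 0 B, ‖S k P t α‖ ^ 2 ≤ C * P * (1 + 1 / (|t| * (P : ℝ) ^ (k - 1)))

/-- Counting `k`-th powers near `r`. -/
def CountStm : Prop :=
  ∀ (k K : ℕ), 1 ≤ k → 1 ≤ K → ∃ c : ℝ, 0 < c ∧ ∃ P₀ : ℕ, ∀ P J : ℕ, P₀ * J ≤ P → 1 ≤ J →
    ∀ r : ℤ, (P : ℤ) ^ k ≤ r → r ≤ K * (P : ℤ) ^ k →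
      c * (P / J : ℝ) ≤ ((Icc 1 (K * P)).filter
        (fun x : ℕ => (8 * J : ℤ) * |(x : ℤ) ^ k - r| ≤ (P : ℤ) ^ k)).card

/-- The detecting kernel: `Q = 2h+1`. -/
def KernelStm : Prop :=
  ∀ (h J : ℕ), 1 ≤ J → J ≤ h → ∃ w : ℤ → ℝ, (∀ m, 0 ≤ w m) ∧
    (∀ m : ℤ, 8 * J * |m| ≤ 2 * h + 1 → (J : ℝ) / (4 * (2 * h + 1)) ≤ w m) ∧
    ∀ m : ℤ, |m| ≤ 2 * h →
      (if m = 0 then (1 : ℂ) else 0) = w m +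
        1 / (2 * h + 1 : ℂ) * ∑ j ∈ Icc (-(h : ℤ)) h, (min 1 (|(j : ℝ)| / J) : ℝ) * e (j / (2 * h + 1 : ℝ) * m)

end Pool.Agent.Helper11W
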