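import Mathlib
import Pool.Agent.Helper11W.Stm

/-!
# Fourier expansion of `sin²(πu) e(t⌊u⌋)`
-/

set_option autoImplicit false

namespace Pool.Agent.Helper11W

open MeasureTheory Finset

namespace Fou

/-- `sin²(πu) e(-tu)` -/
noncomputable def g (t : ℝ) (u : ℝ) : ℂ :=
  ((Real.sin (Real.pi * u) ^ 2 : ℝ) : ℂ) * e (-t * u)

theorem e_add (x y : ℝ) : e (x + y) = e x * e y := by
  unfold e
  rw [← Complex.exp_add]
  congr 1
  push_cast
  ring

theorem e_int (n : ℤ) : e (n : ℝ) = 1 := by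
  unfold e
  rw [Complex.exp_eq_one_iff]
  exact ⟨n, by push_cast; ring⟩

theorem e_cont : Continuous e := by
  unfold e
  fun_prop

theorem norm_e (x : ℝ) : ‖e x‖ = 1 := by
  unfold e
  rw [show (2 * (Real.pi : ℂ) * (x : ℂ) * Complex.I) = ((2 * Real.pi * x : ℝ) : ℂ) * Complex.I by
    push_cast; ring]
  exact Complex.norm_exp_ofReal_mul_I _

theorem g_cont (t : ℝ) : Continuous (g t) := by
  unfold g
  have := e_cont
  fun_prop

theorem g_zero (t : ℝ) : g t 0 = 0 := by simp [g]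

theorem g_one (t : ℝ) : g t (0 + 1) = 0 := by simp [g]

/-- `sin²(πu)` as a combination of exponentials. -/
theorem sin_sq_e (u : ℝ) : ((Real.sin (Real.pi * u) ^ 2 : ℝ) : ℂ) =
    1 / 2 - 1 / 4 * e u - 1 / 4 * e (-u) := by
  have h1 : Complex.cos (2 * (Real.pi * u)) = (e u + e (-u)) / 2 := by
    unfold e
    rw [Complex.cos]
    congr 2
    · congr 1
      ring
    · congr 1
      push_cast
      ring
  have h2 : ((Real.sin (Real.pi * u) ^ 2 : ℝ) : ℂ) = (1 - Complex.cos (2 * (Real.pi * u))) / 2 := by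
    rw [Complex.cos_two_mul]
    have := Complex.sin_sq_add_cos_sq (Real.pi * u)
    push_cast
    linear_combination this
  rw [h2, h1]
  ring

/-- `∫_0^1 e(-θu) du` -/
theorem int_e (θ : ℝ) (hθ : θ ≠ 0) :
    ∫ u in (0 : ℝ)..1, e (-θ * u) = (1 - e (-θ)) / (2 * Real.pi * Complex.I * θ) := by
  have hc : (-(2 * Real.pi * Complex.I * θ) : ℂ) ≠ 0 := by
    have : (Real.pi : ℂ) ≠ 0 := by exact_mod_cast Real.pi_ne_zero
    have h3 : (θ : ℂ) ≠ 0 := by exact_mod_cast hθ
    simp [this, h3]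
  have h := integral_exp_mul_complex (a := 0) (b := 1) hc
  have h2 : (fun u : ℝ => e (-θ * u)) =
      fun u : ℝ => Complex.exp (-(2 * Real.pi * Complex.I * θ) * u) := by
    funext u
    unfold e
    congr 1
    push_cast
    ring
  rw [h2, h]
  unfold e
  simp only [Complex.ofReal_one, Complex.ofReal_zero, mul_one, mul_zero, Complex.exp_zero]
  rw [show (2 * (Real.pi : ℂ) * ((-θ : ℝ) : ℂ) * Complex.I) = -(2 * Real.pi * Complex.I * θ) by
    push_cast; ring]
  rw [div_neg, ← neg_div, neg_sub]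

/-- the Fourier coefficient `∫_0^1 sin²(πu) e(-tu) e(-hu) du` in terms of `J(θ) = ∫_0^1 e(-θu)du` -/
theorem coeff_eq (t θ : ℝ) (h : ℝ) (hth : θ = t + h) :
    ∫ u in (0 : ℝ)..1, e (-h * u) * g t u =
      1 / 2 * (∫ u in (0 : ℝ)..1, e (-θ * u)) - 1 / 4 * (∫ u in (0 : ℝ)..1, e (-(θ - 1) * u)) -
        1 / 4 * ∫ u in (0 : ℝ)..1, e (-(θ + 1) * u) := by
  have hi : ∀ c : ℝ, IntervalIntegrable (fun u : ℝ => e (c * u)) volume 0 1 := fun c =>
    (e_cont.comp (continuous_const.mul continuous_id)).intervalIntegrable _ _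
  rw [← intervalIntegral.integral_const_mul, ← intervalIntegral.integral_const_mul,
    ← intervalIntegral.integral_const_mul, ← intervalIntegral.integral_sub,
    ← intervalIntegral.integral_sub]
  · refine intervalIntegral.integral_congr fun u _ => ?_
    simp only [g]
    rw [sin_sq_e u]
    have e1 : e (-h * u) * e (-t * u) = e (-θ * u) := by
      rw [← e_add]; congr 1; rw [hth]; ring
    have e2 : e (-(θ - 1) * u) = e (-θ * u) * e u := by
      rw [← e_add]; congr 1; ring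
    have e3 : e (-(θ + 1) * u) = e (-θ * u) * e (-u) := by
      rw [← e_add]; congr 1; ring
    rw [e2, e3, ← e1]
    ring
  · exact ((hi _).const_mul _).sub ((hi _).const_mul _)
  · exact (hi _).const_mul _
  · exact (hi _).const_mul _
  · exact (hi _).const_mul _

theorem e_sub_one (θ : ℝ) : e (-(θ - 1)) = e (-θ) := by
  have h : -(θ - 1) = -θ + ((1 : ℤ) : ℝ) := by push_cast; ring
  rw [h, e_add, e_int, mul_one]

theorem e_add_one (θ : ℝ) : e (-(θ + 1)) = e (-θ) := by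
  have h : -(θ + 1) = -θ + ((-1 : ℤ) : ℝ) := by push_cast; ring
  rw [h, e_add, e_int, mul_one]

/-- the size of the coefficients, `|h| ≥ 2` -/
theorem coeff_le (t : ℝ) (ht : |t| ≤ 1 / 2) (h : ℝ) (hh : 2 ≤ |h|) :
    ‖∫ u in (0 : ℝ)..1, e (-h * u) * g t u‖ ≤ 1 / h ^ 2 := by
  set θ : ℝ := t + h with hθ
  have hpi : (Real.pi : ℂ) ≠ 0 := by exact_mod_cast Real.pi_ne_zero
  have h1 : 3 / 2 ≤ |θ| := by
    have : |h| ≤ |θ| + |t| := by
      have := abs_sub θ t
      rw [hθ] at this ⊢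
      simpa using this
    linarith
  have h2 : |h| ≤ 4 / 3 * |θ| := by
    have : |h| ≤ |θ| + |t| := by
      have := abs_sub θ t
      rw [hθ] at this ⊢
      simpa using this
    linarith
  have hθ0 : θ ≠ 0 := by
    intro h0; rw [h0, abs_zero] at h1; linarith
  have hθ1 : θ - 1 ≠ 0 := by
    intro h0
    have : θ = 1 := by linarith
    rw [this, abs_one] at h1; linarith
  have hθ2 : θ + 1 ≠ 0 := by
    intro h0
    have : θ = -1 := by linarith
    rw [this, abs_neg, abs_one] at h1; linarith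
  have hsq : 9 / 4 ≤ θ ^ 2 := by
    rw [← sq_abs]; nlinarith
  have hc0 : (θ : ℂ) ≠ 0 := by exact_mod_cast hθ0
  have hc1 : (θ : ℂ) - 1 ≠ 0 := by exact_mod_cast hθ1
  have hc2 : (θ : ℂ) + 1 ≠ 0 := by exact_mod_cast hθ2
  rw [coeff_eq t θ h hθ, int_e θ hθ0, int_e (θ - 1) hθ1, int_e (θ + 1) hθ2, e_sub_one, e_add_one]
  have hform : (1 / 2 * ((1 - e (-θ)) / (2 * Real.pi * Complex.I * θ)) -
      1 / 4 * ((1 - e (-θ)) / (2 * Real.pi * Complex.I * ((θ - 1 : ℝ) : ℂ))) -
      1 / 4 * ((1 - e (-θ)) / (2 * Real.pi * Complex.I * ((θ + 1 : ℝ) : ℂ))) : ℂ) =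
      -(1 - e (-θ)) / (4 * Real.pi * Complex.I * (θ * (θ ^ 2 - 1))) := by
    push_cast
    have hc3 : (θ : ℂ) ^ 2 - 1 ≠ 0 := by
      have : (θ : ℂ) ^ 2 - 1 = ((θ : ℂ) - 1) * ((θ : ℂ) + 1) := by ring
      rw [this]; exact mul_ne_zero hc1 hc2
    have hI := Complex.I_ne_zero
    field_simp
    ring
  rw [hform, norm_div, norm_neg]
  have hn : ‖(1 : ℂ) - e (-θ)‖ ≤ 2 := by
    calc ‖(1 : ℂ) - e (-θ)‖ ≤ ‖(1 : ℂ)‖ + ‖e (-θ)‖ := norm_sub_le _ _
      _ = 2 := by rw [norm_one, norm_e]; norm_num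
  have hd : ‖(4 * Real.pi * Complex.I * (θ * (θ ^ 2 - 1)) : ℂ)‖ =
      4 * Real.pi * (|θ| * (θ ^ 2 - 1)) := by
    rw [show (4 * Real.pi * Complex.I * (θ * (θ ^ 2 - 1)) : ℂ) =
      ((4 * Real.pi * (θ * (θ ^ 2 - 1)) : ℝ) : ℂ) * Complex.I by push_cast; ring]
    rw [norm_mul, Complex.norm_I, mul_one, Complex.norm_real, Real.norm_eq_abs, abs_mul, abs_mul,
      abs_mul, abs_of_pos (by norm_num : (0 : ℝ) < 4), abs_of_pos Real.pi_pos,
      abs_of_nonneg (by linarith : (0 : ℝ) ≤ θ ^ 2 - 1)]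
  rw [hd]
  have hh2 : h ^ 2 ≤ 16 / 9 * θ ^ 2 := by
    rw [← sq_abs h, ← sq_abs θ]
    have := abs_nonneg h
    nlinarith
  have hh0 : 0 < h ^ 2 := by
    rw [← sq_abs]; positivity
  have hpos : 0 < 4 * Real.pi * (|θ| * (θ ^ 2 - 1)) := by
    have : 0 < θ ^ 2 - 1 := by linarith
    have := Real.pi_pos
    have : 0 < |θ| := by linarith
    positivity
  calc ‖(1 : ℂ) - e (-θ)‖ / (4 * Real.pi * (|θ| * (θ ^ 2 - 1)))
      ≤ 2 / (4 * Real.pi * (|θ| * (θ ^ 2 - 1))) := by gcongr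
    _ ≤ 1 / h ^ 2 := by
        rw [div_le_div_iff₀ hpos hh0]
        have hp3 := Real.pi_gt_three
        have k1 : 2 * h ^ 2 ≤ 32 / 9 * θ ^ 2 := by linarith
        have k2 : 5 / 9 * θ ^ 2 ≤ θ ^ 2 - 1 := by linarith
        have k3 : 3 / 2 * (5 / 9 * θ ^ 2) ≤ |θ| * (θ ^ 2 - 1) :=
          mul_le_mul h1 k2 (by positivity) (abs_nonneg _)
        have k4 : 4 * 3 * (3 / 2 * (5 / 9 * θ ^ 2)) ≤ 4 * Real.pi * (|θ| * (θ ^ 2 - 1)) := by
          apply mul_le_mul _ k3 (by positivity) (by positivity)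
          linarith
        nlinarith

/-- the size of the coefficients, trivial bound -/
theorem coeff_le_one (t : ℝ) (h : ℝ) :
    ‖∫ u in (0 : ℝ)..1, e (-h * u) * g t u‖ ≤ 1 := by
  have : ∀ u ∈ Set.uIoc (0 : ℝ) 1, ‖e (-h * u) * g t u‖ ≤ 1 := by
    intro u _
    rw [norm_mul, norm_e, one_mul, g, norm_mul, norm_e, mul_one, Complex.norm_real,
      Real.norm_eq_abs, abs_of_nonneg (sq_nonneg _)]
    exact Real.sin_sq_le_one _
  have := intervalIntegral.norm_integral_le_of_norm_le_const this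
  simpa using this

/-- summable majorant of the coefficients -/
noncomputable def b (h : ℤ) : ℝ := 1 / (h : ℝ) ^ 2 + if h = 0 then 1 else 0

theorem b_summable : Summable b := by
  unfold b
  refine (Real.summable_one_div_int_pow.mpr (by norm_num)).add ?_
  exact (hasSum_ite_eq (0 : ℤ) (1 : ℝ)).summable

theorem coeff_le_b (t : ℝ) (ht : |t| ≤ 1 / 2) (h : ℤ) :
    ‖∫ u in (0 : ℝ)..1, e (-(h : ℝ) * u) * g t u‖ ≤ b h := by
  rcases eq_or_ne h 0 with h0 | h0
  · have := coeff_le_one t (h : ℝ)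
    unfold b
    rw [if_pos h0]
    have h5 : 0 ≤ 1 / (h : ℝ) ^ 2 := by positivity
    linarith
  · unfold b
    rw [if_neg h0, add_zero]
    by_cases h1 : |h| = 1
    · have h2 : ((h : ℝ)) ^ 2 = 1 := by
        have : (|h| : ℤ) ^ 2 = 1 := by rw [h1]; norm_num
        rw [sq_abs] at this
        exact_mod_cast this
      rw [h2]
      have := coeff_le_one t (h : ℝ)
      simpa using this
    · have h2 : 2 ≤ |h| := by
        have := Int.one_le_abs h0
        omega
      refine coeff_le t ht h ?_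
      have : ((2 : ℤ) : ℝ) ≤ ((|h| : ℤ) : ℝ) := by exact_mod_cast h2
      rw [Int.cast_abs] at this
      exact_mod_cast this

/-- the periodic function -/
noncomputable def F (t : ℝ) : C(AddCircle (1 : ℝ), ℂ) :=
  ⟨AddCircle.liftIco 1 0 (g t), AddCircle.liftIco_continuous
    (by rw [g_zero, g_one]) (g_cont t).continuousOn⟩

theorem F_coeff (t : ℝ) (h : ℤ) :
    fourierCoeff (F t) h = ∫ u in (0 : ℝ)..1, e (-(h : ℝ) * u) * g t u := by
  have h1 : fourierCoeff (F t) h = fourierCoeff (AddCircle.liftIco 1 0 (g t)) h := rfl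
  rw [h1, fourierCoeff_liftIco_eq, fourierCoeffOn_eq_integral]
  simp only [zero_add, sub_zero, div_one, one_smul]
  refine intervalIntegral.integral_congr fun u _ => ?_
  simp only [smul_eq_mul]
  congr 1
  rw [fourier_coe_apply]
  unfold e
  congr 1
  push_cast
  ring

theorem F_apply (t u : ℝ) : F t (u : AddCircle (1 : ℝ)) = g t (Int.fract u) := by
  have h1 : ((u : ℝ) : AddCircle (1 : ℝ)) = ((Int.fract u : ℝ) : AddCircle (1 : ℝ)) := by
    have h2 : u = Int.fract u + (⌊u⌋ : ℤ) • (1 : ℝ) := by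
      rw [zsmul_eq_mul, mul_one]; exact (Int.fract_add_floor u).symm
    conv_lhs => rw [h2]
    rw [AddCircle.coe_add, AddCircle.coe_zsmul, AddCircle.coe_period, smul_zero, add_zero]
  rw [h1]
  show AddCircle.liftIco 1 0 (g t) _ = _
  rw [AddCircle.liftIco_coe_apply]
  rw [zero_add]
  exact ⟨Int.fract_nonneg u, Int.fract_lt_one u⟩

theorem main (t : ℝ) (ht : |t| ≤ 1 / 2) (u : ℝ) :
    HasSum (fun h : ℤ => fourierCoeff (F t) h * e ((t + h) * u))
      (((Real.sin (Real.pi * u) ^ 2 : ℝ) : ℂ) * e (t * ⌊u⌋)) := by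
  have hs : Summable (fourierCoeff (F t)) := by
    refine Summable.of_norm_bounded b_summable fun h => ?_
    rw [F_coeff]
    exact coeff_le_b t ht h
  have h1 := has_pointwise_sum_fourier_series_of_summable hs (u : AddCircle (1 : ℝ))
  have h2 := h1.mul_right (e (t * u))
  rw [F_apply] at h2
  have hf : (fun h : ℤ => fourierCoeff (F t) h * e ((t + h) * u)) =
      fun i : ℤ => fourierCoeff (F t) i • (fourier i) (u : AddCircle (1 : ℝ)) * e (t * u) := by
    funext h
    rw [smul_eq_mul, mul_assoc, fourier_coe_apply]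
    congr 1
    have h3 : e ((t + h) * u) = e (h * u) * e (t * u) := by
      rw [← e_add]; congr 1; ring
    rw [h3]
    congr 1
    unfold e
    congr 1
    push_cast
    ring
  have hv : (((Real.sin (Real.pi * u) ^ 2 : ℝ) : ℂ) * e (t * ⌊u⌋)) =
      g t (Int.fract u) * e (t * u) := by
    unfold g
    rw [mul_assoc, ← e_add]
    congr 2
    · have h4 : Real.pi * Int.fract u = Real.pi * u - (⌊u⌋ : ℤ) * Real.pi := by
        rw [← Int.self_sub_floor u]; ring
      rw [h4, Real.sin_sub_int_mul_pi, mul_pow]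
      have h5 : ((-1 : ℝ) ^ ⌊u⌋) ^ 2 = 1 := by
        rw [← zpow_natCast, ← zpow_mul, mul_comm, zpow_mul]
        norm_num
      rw [h5, one_mul]
    · rw [← Int.self_sub_floor u]; ring
  rw [hf, hv]
  exact h2

end Fou

/-- Fourier expansion of `sin²(πu) e(t⌊u⌋)`. -/
theorem fourier : FourierStm := by
  refine ⟨∑' h, Fou.b h + 1, ?_, fun t ht => ?_⟩
  · have : 0 ≤ ∑' h, Fou.b h := tsum_nonneg fun h => by
      unfold Fou.b
      positivity
    linarith
  · have hb : ∀ h : ℤ, ‖fourierCoeff (Fou.F t) h‖ ≤ Fou.b h := fun h => by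
      rw [Fou.F_coeff]
      exact Fou.coeff_le_b t ht h
    have hs : Summable (fun h => ‖fourierCoeff (Fou.F t) h‖) :=
      Summable.of_nonneg_of_le (fun _ => norm_nonneg _) hb Fou.b_summable
    refine ⟨fourierCoeff (Fou.F t), hs, ?_, Fou.main t ht⟩
    have := hs.tsum_le_tsum hb Fou.b_summable
    linarith

end Pool.Agent.Helper11W
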