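import Pool.Agent.Helper11W.Stm

/-!
# The detecting kernel (Fejer kernel modulo `2h+1`)
-/

set_option autoImplicit false

namespace Pool.Agent.Helper11W

open MeasureTheory Finset

namespace Ker

theorem e_add (x y : ℝ) : e (x + y) = e x * e y := by
  unfold e
  rw [← Complex.exp_add]
  congr 1
  push_cast
  ring

theorem e_zero : e 0 = 1 := by
  simp [e]

theorem e_nat_mul (n : ℕ) (x : ℝ) : e (n * x) = e x ^ n := by
  unfold e
  rw [← Complex.exp_nat_mul]
  congr 1
  push_cast
  ring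

theorem e_conj (x : ℝ) : (starRingEnd ℂ) (e x) = e (-x) := by
  unfold e
  rw [← Complex.exp_conj]
  congr 1
  have : (2 * (Real.pi : ℂ) * (x : ℂ) * Complex.I) = ((2 * Real.pi * x : ℝ) : ℂ) * Complex.I := by
    push_cast; ring
  rw [this, map_mul, Complex.conj_ofReal, Complex.conj_I]
  push_cast
  ring

theorem e_re (x : ℝ) : (e x).re = Real.cos (2 * Real.pi * x) := by
  unfold e
  have : (2 * (Real.pi : ℂ) * (x : ℂ) * Complex.I) = ((2 * Real.pi * x : ℝ) : ℂ) * Complex.I := by
    push_cast; ring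
  rw [this, Complex.exp_ofReal_mul_I_re]

theorem e_int (n : ℤ) : e (n : ℝ) = 1 := by
  unfold e
  rw [Complex.exp_eq_one_iff]
  exact ⟨n, by push_cast; ring⟩

theorem e_eq_one {x : ℝ} (h : e x = 1) : ∃ n : ℤ, x = n := by
  unfold e at h
  rw [Complex.exp_eq_one_iff] at h
  obtain ⟨n, hn⟩ := h
  refine ⟨n, ?_⟩
  have h2 : (2 * (Real.pi : ℂ) * Complex.I) ≠ 0 := Complex.two_pi_I_ne_zero
  have h3 : (x : ℂ) * (2 * (Real.pi : ℂ) * Complex.I) = n * (2 * (Real.pi : ℂ) * Complex.I) := by
    rw [← hn]; ring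
  have h4 := mul_right_cancel₀ h2 h3
  exact_mod_cast h4

/-- the full sum -/
theorem full_sum (h : ℕ) (m : ℤ) (hm : |m| ≤ 2 * h) :
    ∑ j ∈ Icc (-(h : ℤ)) h, e (j / (2 * h + 1 : ℝ) * m) = if m = 0 then (2 * h + 1 : ℂ) else 0 := by
  split_ifs with h0
  · subst h0
    simp only [Int.cast_zero, mul_zero, e_zero, sum_const, Int.card_Icc, nsmul_eq_mul, mul_one]
    have : ((h : ℤ) + 1 - -(h : ℤ)).toNat = 2 * h + 1 := by omega
    rw [this]
    push_cast
    ring
  · have hQ : (0 : ℝ) < 2 * h + 1 := by positivity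
    have h1 : ∑ j ∈ Icc (-(h : ℤ)) h, e (j / (2 * h + 1 : ℝ) * m)
        = ∑ i ∈ range (2 * h + 1), e (((i : ℝ) - h) / (2 * h + 1 : ℝ) * m) := by
      refine Finset.sum_nbij' (fun j => (j + h).toNat) (fun i => (i : ℤ) - h) ?_ ?_ ?_ ?_ ?_
      · intro j hj
        simp only [mem_Icc] at hj
        simp only [mem_range]
        omega
      · intro i hi
        simp only [mem_range] at hi
        simp only [mem_Icc]
        omega
      · intro j hj
        simp only [mem_Icc] at hj
        omega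
      · intro i hi
        omega
      · intro j hj
        simp only [mem_Icc] at hj
        have h2 : (((j + h).toNat : ℕ) : ℝ) = (j : ℝ) + h := by
          have h3 : (((j + h).toNat : ℕ) : ℤ) = j + h := by omega
          have h4 : ((((j + h).toNat : ℕ) : ℤ) : ℝ) = ((j + h : ℤ) : ℝ) := by rw [h3]
          push_cast at h4
          exact_mod_cast h4
        rw [h2]
        congr 2
        ring
    rw [h1]
    have h2 : ∀ i ∈ range (2 * h + 1), e (((i : ℝ) - h) / (2 * h + 1 : ℝ) * m)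
        = e (-(h : ℝ) / (2 * h + 1) * m) * e ((m : ℝ) / (2 * h + 1)) ^ i := by
      intro i _
      rw [← e_nat_mul, ← e_add]
      congr 1
      field_simp
      ring
    rw [sum_congr rfl h2, ← mul_sum]
    have h3 : e ((m : ℝ) / (2 * h + 1)) ≠ 1 := by
      intro h4
      obtain ⟨n, hn⟩ := e_eq_one h4
      rw [div_eq_iff hQ.ne'] at hn
      have h5 : m = n * (2 * h + 1) := by exact_mod_cast hn
      have h6 : n ≠ 0 := by
        rintro rfl
        apply h0
        rw [h5]; ring
      have h7 : (1 : ℤ) ≤ |n| := Int.one_le_abs h6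
      have h8 : |m| = |n| * (2 * h + 1) := by
        rw [h5, abs_mul, abs_of_pos (by positivity : (0 : ℤ) < 2 * (h : ℤ) + 1)]
      nlinarith
    have h4 : e ((m : ℝ) / (2 * h + 1)) ^ (2 * h + 1) = 1 := by
      rw [← e_nat_mul]
      have : ((2 * h + 1 : ℕ) : ℝ) * ((m : ℝ) / (2 * h + 1)) = (m : ℤ) := by
        push_cast
        field_simp
      rw [this, e_int]
    rw [geom_sum_eq h3, h4, sub_self, zero_div, mul_zero]

/-- number of pairs with given difference -/
theorem card_diff (J : ℕ) (j : ℤ) :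
    (((range J ×ˢ range J).filter (fun q : ℕ × ℕ => (q.1 : ℤ) - q.2 = j)).card : ℤ)
      = max 0 ((J : ℤ) - |j|) := by
  rcases le_total 0 j with hj | hj
  · obtain ⟨n, rfl⟩ := Int.eq_ofNat_of_zero_le hj
    have h1 : ((range J ×ˢ range J).filter (fun q : ℕ × ℕ => (q.1 : ℤ) - q.2 = (n : ℤ))).card
        = (range (J - n)).card := by
      refine Finset.card_nbij' (fun q => q.2) (fun b => (b + n, b)) ?_ ?_ ?_ ?_
      · intro q hq
        simp only [coe_filter, mem_product, mem_range, Set.mem_ofPred_eq] at hq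
        simp only [coe_range, Set.mem_Iio]
        omega
      · intro b hb
        simp only [coe_range, Set.mem_Iio] at hb
        simp only [coe_filter, mem_product, mem_range, Set.mem_ofPred_eq]
        push_cast
        omega
      · intro q hq
        simp only [coe_filter, mem_product, mem_range, Set.mem_ofPred_eq] at hq
        dsimp only
        ext
        · dsimp only; omega
        · rfl
      · intro b hb
        rfl
    rw [h1, card_range, abs_of_nonneg (by positivity)]
    omega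
  · obtain ⟨n, hn⟩ := Int.exists_eq_neg_ofNat hj
    subst hn
    have h1 : ((range J ×ˢ range J).filter (fun q : ℕ × ℕ => (q.1 : ℤ) - q.2 = -(n : ℤ))).card
        = (range (J - n)).card := by
      refine Finset.card_nbij' (fun q => q.1) (fun b => (b, b + n)) ?_ ?_ ?_ ?_
      · intro q hq
        simp only [coe_filter, mem_product, mem_range, Set.mem_ofPred_eq] at hq
        simp only [coe_range, Set.mem_Iio]
        omega
      · intro b hb
        simp only [coe_range, Set.mem_Iio] at hb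
        simp only [coe_filter, mem_product, mem_range, Set.mem_ofPred_eq]
        push_cast
        omega
      · intro q hq
        simp only [coe_filter, mem_product, mem_range, Set.mem_ofPred_eq] at hq
        dsimp only
        ext
        · rfl
        · dsimp only; omega
      · intro b hb
        rfl
    rw [h1, card_range, abs_neg, abs_of_nonneg (by positivity)]
    omega

/-- the Fejer kernel -/
theorem fejer (h J : ℕ) (hJ : 1 ≤ J) (hJh : J ≤ h) (x : ℝ) :
    ((‖∑ a ∈ range J, e (a * x)‖ ^ 2 : ℝ) : ℂ)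
      = ∑ j ∈ Icc (-(h : ℤ)) h, ((J : ℝ) * (1 - min 1 (|(j : ℝ)| / J)) : ℝ) * e (j * x) := by
  have hJ0 : (0 : ℝ) < J := by exact_mod_cast hJ
  have h1 : ((‖∑ a ∈ range J, e (a * x)‖ ^ 2 : ℝ) : ℂ)
      = ∑ q ∈ range J ×ˢ range J, e (((q.1 : ℤ) - q.2 : ℤ) * x) := by
    have : ((‖∑ a ∈ range J, e (a * x)‖ ^ 2 : ℝ) : ℂ)
        = (∑ a ∈ range J, e (a * x)) * (starRingEnd ℂ) (∑ a ∈ range J, e (a * x)) := by
      rw [Complex.mul_conj, Complex.normSq_eq_norm_sq]
    rw [this, map_sum, sum_mul_sum, sum_product]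
    refine sum_congr rfl fun a _ => sum_congr rfl fun b _ => ?_
    rw [e_conj, ← e_add]
    congr 1
    push_cast
    ring
  rw [h1]
  have h2 : ∀ q ∈ range J ×ˢ range J, ((q.1 : ℤ) - q.2) ∈ Icc (-(h : ℤ)) h := by
    intro q hq
    simp only [mem_product, mem_range] at hq
    simp only [mem_Icc]
    omega
  rw [← Finset.sum_fiberwise_of_maps_to h2]
  refine sum_congr rfl fun j hj => ?_
  have h3 : ∀ q ∈ (range J ×ˢ range J).filter (fun q : ℕ × ℕ => (q.1 : ℤ) - q.2 = j),
      e (((q.1 : ℤ) - q.2 : ℤ) * x) = e (j * x) := by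
    intro q hq
    rw [mem_filter] at hq
    rw [hq.2]
  rw [sum_congr rfl h3, sum_const, nsmul_eq_mul]
  congr 1
  have h4 := card_diff J j
  have h5 : ((((range J ×ˢ range J).filter (fun q : ℕ × ℕ => (q.1 : ℤ) - q.2 = j)).card : ℤ) : ℝ)
      = ((max 0 ((J : ℤ) - |j|) : ℤ) : ℝ) := by rw [h4]
  have h6 : ((((range J ×ˢ range J).filter (fun q : ℕ × ℕ => (q.1 : ℤ) - q.2 = j)).card : ℕ) : ℝ)
      = (J : ℝ) * (1 - min 1 (|(j : ℝ)| / J)) := by
    have h7 : ((((range J ×ˢ range J).filter (fun q : ℕ × ℕ => (q.1 : ℤ) - q.2 = j)).card : ℕ) : ℝ)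
      = ((((range J ×ˢ range J).filter (fun q : ℕ × ℕ => (q.1 : ℤ) - q.2 = j)).card : ℤ) : ℝ) := by
      push_cast; rfl
    rw [h7, h5]
    push_cast
    rcases le_total ((J : ℝ)) |(j : ℝ)| with h8 | h8
    · rw [max_eq_left (by linarith), min_eq_left (by rw [le_div_iff₀ hJ0]; linarith)]
      ring
    · rw [max_eq_right (by linarith), min_eq_right (by rw [div_le_iff₀ hJ0]; linarith)]
      field_simp
  rw [← h6]
  push_cast
  rfl

end Ker

open Ker in
theorem kernel : KernelStm := by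
  intro h J hJ hJh
  have hJ0 : (0 : ℝ) < J := by exact_mod_cast hJ
  have hQ : (0 : ℝ) < 2 * h + 1 := by positivity
  refine ⟨fun m => 1 / ((2 * h + 1) * J) * ‖∑ a ∈ range J, e (a * ((m : ℝ) / (2 * h + 1)))‖ ^ 2,
    fun m => by positivity, ?_, ?_⟩
  · intro m hm
    have hmR : 8 * (J : ℝ) * |(m : ℝ)| ≤ 2 * h + 1 := by exact_mod_cast hm
    have h1 : (J : ℝ) / 2 ≤ (∑ a ∈ range J, e (a * ((m : ℝ) / (2 * h + 1)))).re := by
      rw [Complex.re_sum]
      have h2 : ∀ a ∈ range J, (1 : ℝ) / 2 ≤ (e (a * ((m : ℝ) / (2 * h + 1)))).re := by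
        intro a ha
        rw [mem_range] at ha
        rw [e_re, ← Real.cos_abs]
        have h3 : |2 * Real.pi * (a * ((m : ℝ) / (2 * h + 1)))| ≤ Real.pi / 3 := by
          rw [abs_mul, abs_mul, abs_mul, abs_div, abs_of_pos (by norm_num : (0 : ℝ) < 2),
            abs_of_pos Real.pi_pos, abs_of_pos hQ, abs_of_nonneg (Nat.cast_nonneg a)]
          have h4 : (a : ℝ) ≤ J := by exact_mod_cast ha.le
          have h5 : (a : ℝ) * (|(m : ℝ)| / (2 * h + 1)) ≤ 1 / 8 := by
            rw [← mul_div_assoc, div_le_iff₀ hQ]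
            have : (a : ℝ) * |(m : ℝ)| ≤ J * |(m : ℝ)| := by gcongr
            linarith
          have h6 := Real.pi_pos
          nlinarith
        calc (1 : ℝ) / 2 = Real.cos (Real.pi / 3) := by rw [Real.cos_pi_div_three]
          _ ≤ _ := Real.cos_le_cos_of_nonneg_of_le_pi (abs_nonneg _)
              (by linarith [Real.pi_pos]) h3
      calc (J : ℝ) / 2 = ∑ a ∈ range J, (1 : ℝ) / 2 := by simp; ring
        _ ≤ _ := sum_le_sum h2
    have h2 : ((J : ℝ) / 2) ^ 2 ≤ ‖∑ a ∈ range J, e (a * ((m : ℝ) / (2 * h + 1)))‖ ^ 2 := by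
      have := Complex.re_le_norm (∑ a ∈ range J, e (a * ((m : ℝ) / (2 * h + 1))))
      gcongr
      exact h1.trans this
    calc (J : ℝ) / (4 * (2 * h + 1)) = 1 / ((2 * h + 1) * J) * ((J : ℝ) / 2) ^ 2 := by
          field_simp
          ring
      _ ≤ _ := mul_le_mul_of_nonneg_left h2 (by positivity)
  · intro m hm
    have h1 := full_sum h m hm
    have h2 := fejer h J hJ hJh ((m : ℝ) / (2 * h + 1))
    have hQc : (2 * h + 1 : ℂ) ≠ 0 := by exact_mod_cast hQ.ne'
    have hJc : (J : ℂ) ≠ 0 := by exact_mod_cast hJ0.ne'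
    have h3 : (if m = 0 then (1 : ℂ) else 0)
        = 1 / (2 * h + 1 : ℂ) * ∑ j ∈ Icc (-(h : ℤ)) h, e (j / (2 * h + 1 : ℝ) * m) := by
      rw [h1]
      split_ifs
      · field_simp
      · simp
    rw [h3]
    have h4 : ((1 / ((2 * h + 1) * J) * ‖∑ a ∈ range J, e (a * ((m : ℝ) / (2 * h + 1)))‖ ^ 2 : ℝ) : ℂ)
        = 1 / (2 * h + 1 : ℂ) * ∑ j ∈ Icc (-(h : ℤ)) h,
          ((1 - min 1 (|(j : ℝ)| / J)) : ℝ) * e (j / (2 * h + 1 : ℝ) * m) := by
      rw [Complex.ofReal_mul, h2, mul_sum, mul_sum]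
      refine sum_congr rfl fun j _ => ?_
      have h5 : (j : ℝ) * ((m : ℝ) / (2 * h + 1)) = j / (2 * h + 1 : ℝ) * m := by ring
      rw [h5]
      push_cast
      field_simp
    dsimp only
    rw [h4, ← mul_add, ← sum_add_distrib]
    congr 1
    refine sum_congr rfl fun j _ => ?_
    rw [← add_mul, ← Complex.ofReal_add]
    norm_num

end Pool.Agent.Helper11W
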