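import Mathlib
import Pool.Agent.Helper11W.Stm

/-!
# Mean square of `T`
-/

set_option autoImplicit false

namespace Pool.Agent.Helper11W

open MeasureTheory Finset

lemma pow_diff {x y P : ℝ} (n : ℕ) (hP : 0 ≤ P) (hy : P ≤ y) (hx : y ≤ x) :
    P ^ n * (x - y) ≤ x ^ (n + 1) - y ^ (n + 1) := by
  have h1 : x ^ (n + 1) - y ^ (n + 1) = x ^ n * (x - y) + y * (x ^ n - y ^ n) := by ring
  have h2 : P ^ n ≤ x ^ n := pow_le_pow_left₀ hP (hy.trans hx) n
  have h3 : y ^ n ≤ x ^ n := pow_le_pow_left₀ (hP.trans hy) hx n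
  have h4 : 0 ≤ y * (x ^ n - y ^ n) := mul_nonneg (hP.trans hy) (sub_nonneg.mpr h3)
  have h5 : P ^ n * (x - y) ≤ x ^ n * (x - y) := mul_le_mul_of_nonneg_right h2 (sub_nonneg.mpr hx)
  linarith

lemma geo_bound {κ : ℝ} (hκ : 0 < κ) (n : ℕ) :
    ∑ d ∈ range n, Real.exp (-(κ * d)) ≤ 1 + 1 / κ := by
  have h1 : ∀ n : ℕ, κ * ∑ d ∈ range n, Real.exp (-(κ * (d + 1 : ℕ))) ≤ 1 - Real.exp (-(κ * n)) := by
    intro n
    induction n with
    | zero => simp
    | succ n ih =>
      rw [sum_range_succ, mul_add]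
      have h2 : κ * Real.exp (-(κ * (n + 1 : ℕ))) ≤ Real.exp (-(κ * n)) - Real.exp (-(κ * (n + 1 : ℕ))) := by
        have h3 : Real.exp (-(κ * n)) = Real.exp (-(κ * (n + 1 : ℕ))) * Real.exp κ := by
          rw [← Real.exp_add]; congr 1; push_cast; ring
        have h4 : κ + 1 ≤ Real.exp κ := Real.add_one_le_exp κ
        have h5 := Real.exp_pos (-(κ * (n + 1 : ℕ)))
        rw [h3]
        nlinarith
      linarith
  rcases n with _ | n
  · simp only [range_zero, sum_empty]
    positivity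
  · rw [sum_range_succ']
    have h2 := h1 n
    have h3 := Real.exp_pos (-(κ * n))
    have h4 : ∑ d ∈ range n, Real.exp (-(κ * (d + 1 : ℕ))) ≤ 1 / κ := by
      rw [le_div_iff₀ hκ]
      linarith
    have h5 : Real.exp (-(κ * (0 : ℕ))) = 1 := by simp
    rw [h5]
    linarith

lemma sum_abs_bound {κ : ℝ} (hκ : 0 < κ) (P y : ℕ) :
    ∑ z ∈ Ioc P (2 * P), Real.exp (-(κ * |(y : ℝ) - z|)) ≤ 2 * (1 + 1 / κ) := by
  have hnn : ∀ d : ℕ, 0 ≤ Real.exp (-(κ * d)) := fun d => (Real.exp_pos _).le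
  have h1 : ∑ z ∈ (Ioc P (2 * P)).filter (fun z => z ≤ y), Real.exp (-(κ * |(y : ℝ) - z|))
      ≤ 1 + 1 / κ := by
    have h2 : ∑ z ∈ (Ioc P (2 * P)).filter (fun z => z ≤ y), Real.exp (-(κ * |(y : ℝ) - z|))
        = ∑ d ∈ ((Ioc P (2 * P)).filter (fun z => z ≤ y)).image (fun z => y - z),
          Real.exp (-(κ * d)) := by
      rw [sum_image]
      · refine sum_congr rfl fun z hz => ?_
        have hz' := (mem_filter.mp hz).2
        rw [Nat.cast_sub hz', abs_of_nonneg]
        have : (z : ℝ) ≤ y := by exact_mod_cast hz'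
        linarith
      · intro a ha b hb hab
        have ha' := (mem_filter.mp ha).2
        have hb' := (mem_filter.mp hb).2
        simp only at hab
        omega
    rw [h2]
    refine le_trans (sum_le_sum_of_subset_of_nonneg (t := range (y + 1)) ?_ ?_) (geo_bound hκ _)
    · intro d hd
      rw [mem_image] at hd
      obtain ⟨z, -, rfl⟩ := hd
      rw [mem_range]; omega
    · intro d _ _; exact hnn d
  have h2 : ∑ z ∈ (Ioc P (2 * P)).filter (fun z => ¬ z ≤ y), Real.exp (-(κ * |(y : ℝ) - z|))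
      ≤ 1 + 1 / κ := by
    have h2 : ∑ z ∈ (Ioc P (2 * P)).filter (fun z => ¬ z ≤ y), Real.exp (-(κ * |(y : ℝ) - z|))
        = ∑ d ∈ ((Ioc P (2 * P)).filter (fun z => ¬ z ≤ y)).image (fun z => z - y),
          Real.exp (-(κ * d)) := by
      rw [sum_image]
      · refine sum_congr rfl fun z hz => ?_
        have hz' := (mem_filter.mp hz).2
        rw [Nat.cast_sub (by omega), abs_of_nonpos, neg_sub]
        have : (y : ℝ) ≤ z := by exact_mod_cast (by omega : y ≤ z)
        linarith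
      · intro a ha b hb hab
        have ha' := (mem_filter.mp ha).2
        have hb' := (mem_filter.mp hb).2
        simp only at hab
        omega
    rw [h2]
    refine le_trans (sum_le_sum_of_subset_of_nonneg (t := range (2 * P + 1)) ?_ ?_) (geo_bound hκ _)
    · intro d hd
      rw [mem_image] at hd
      obtain ⟨z, hz, rfl⟩ := hd
      have := (mem_Ioc.mp (mem_filter.mp hz).1).2
      rw [mem_range]; omega
    · intro d _ _; exact hnn d
  rw [← sum_filter_add_sum_filter_not (Ioc P (2 * P)) (fun z => z ≤ y)]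
  linarith

/-- the Gaussian integral -/
lemma gauss_int {B : ℝ} (hB : 1 ≤ B) (s : ℝ) :
    Integrable (fun x : ℝ => Complex.exp (Complex.I * (2 * Real.pi * s : ℝ) * x) *
      Complex.exp (-(Real.pi / B ^ 2 : ℝ) * (x : ℂ) ^ 2)) ∧
    ‖∫ x : ℝ, Complex.exp (Complex.I * (2 * Real.pi * s : ℝ) * x) *
      Complex.exp (-(Real.pi / B ^ 2 : ℝ) * (x : ℂ) ^ 2)‖ ≤ B * Real.exp (-(Real.pi * s ^ 2)) := by
  have hB0 : 0 < B := by linarith
  have hb : 0 < ((Real.pi / B ^ 2 : ℝ) : ℂ).re := by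
    rw [Complex.ofReal_re]; positivity
  constructor
  · have h1 := integrable_cexp_quadratic hb (Complex.I * (2 * Real.pi * s : ℝ)) 0
    refine h1.congr (Filter.Eventually.of_forall fun x => ?_)
    simp only
    rw [← Complex.exp_add]
    congr 1
    ring
  · rw [fourierIntegral_gaussian hb, norm_mul]
    have h1 : (Real.pi : ℂ) / ((Real.pi / B ^ 2 : ℝ) : ℂ) = ((B ^ 2 : ℝ) : ℂ) := by
      push_cast
      have : (Real.pi : ℂ) ≠ 0 := by exact_mod_cast Real.pi_ne_zero
      have hB' : (B : ℂ) ≠ 0 := by exact_mod_cast hB0.ne'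
      field_simp
    have h2 : ‖((Real.pi : ℂ) / ((Real.pi / B ^ 2 : ℝ) : ℂ)) ^ (1 / 2 : ℂ)‖ = B := by
      rw [h1, Complex.norm_cpow_eq_rpow_re_of_pos (by positivity)]
      have h3 : ((1 : ℂ) / 2).re = 1 / 2 := by norm_num
      rw [h3, ← Real.sqrt_eq_rpow, Real.sqrt_sq hB0.le]
    rw [h2]
    refine mul_le_mul_of_nonneg_left ?_ hB0.le
    have h4 : -((2 * Real.pi * s : ℝ) : ℂ) ^ 2 / (4 * ((Real.pi / B ^ 2 : ℝ) : ℂ))
        = ((-(Real.pi * s ^ 2 * B ^ 2) : ℝ) : ℂ) := by
      push_cast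
      have : (Real.pi : ℂ) ≠ 0 := by exact_mod_cast Real.pi_ne_zero
      have hB' : (B : ℂ) ≠ 0 := by exact_mod_cast hB0.ne'
      field_simp
      ring
    rw [h4, Complex.norm_exp, Complex.ofReal_re]
    apply Real.exp_le_exp.mpr
    have h5 : 1 ≤ B ^ 2 := one_le_pow₀ hB
    have h6 : 0 ≤ Real.pi * s ^ 2 := by positivity
    nlinarith

lemma expand_sq (k P : ℕ) (θ α : ℝ) :
    ((‖T k P θ α‖ ^ 2 : ℝ) : ℂ) = ∑ y ∈ Ioc P (2 * P), ∑ z ∈ Ioc P (2 * P),
      Complex.exp (Complex.I * (2 * Real.pi * (θ * ((y : ℝ) ^ k - (z : ℝ) ^ k)) : ℝ) * α) := by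
  have h1 : ((‖T k P θ α‖ ^ 2 : ℝ) : ℂ) = T k P θ α * (starRingEnd ℂ) (T k P θ α) := by
    rw [Complex.mul_conj, Complex.normSq_eq_norm_sq]
  rw [h1, T, map_sum, sum_mul_sum]
  refine sum_congr rfl fun y _ => sum_congr rfl fun z _ => ?_
  rw [e, e, ← Complex.exp_conj, ← Complex.exp_add]
  congr 1
  simp only [map_mul, Complex.conj_ofReal, Complex.conj_I, map_ofNat]
  push_cast
  ring

theorem tms : TStm := by
  intro k B hk hB
  have hB0 : 0 < B := by linarith
  obtain ⟨n, rfl⟩ := Nat.exists_eq_add_of_le' hk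
  refine ⟨Real.exp Real.pi * (B * (Real.exp 1 * 2)), by positivity, ?_⟩
  intro P hP θ hθ
  have hP0 : (0 : ℝ) < P := by exact_mod_cast hP
  set κ := |θ| * (P : ℝ) ^ n with hκ
  have hκ0 : 0 < κ := mul_pos (abs_pos.mpr hθ) (pow_pos hP0 n)
  rw [Nat.add_sub_cancel, ← hκ]
  set b : ℝ := Real.pi / B ^ 2 with hb
  let sf : ℕ → ℕ → ℝ := fun y z => θ * ((y : ℝ) ^ (n + 1) - (z : ℝ) ^ (n + 1))
  let G : ℕ → ℕ → ℝ → ℂ := fun y z x =>
    Complex.exp (Complex.I * (2 * Real.pi * sf y z : ℝ) * x) * Complex.exp (-(b : ℝ) * (x : ℂ) ^ 2)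
  let F : ℝ → ℂ := fun x => ∑ y ∈ Ioc P (2 * P), ∑ z ∈ Ioc P (2 * P), G y z x
  have hG : ∀ y z, Integrable (G y z) := fun y z => (gauss_int hB (sf y z)).1
  have hF : Integrable F := integrable_finsetSum _ fun y _ => integrable_finsetSum _ fun z _ => hG y z
  let W : ℝ → ℝ := fun x => Real.exp (-b * x ^ 2) * ‖T (n + 1) P θ x‖ ^ 2
  have hWF : ∀ x, W x = (F x).re := by
    intro x
    have h1 : ((W x : ℝ) : ℂ) = F x := by
      simp only [W, F, G]
      rw [Complex.ofReal_mul, expand_sq, mul_sum]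
      refine sum_congr rfl fun y _ => ?_
      rw [mul_sum]
      refine sum_congr rfl fun z _ => ?_
      rw [mul_comm]
      congr 1
      push_cast
      ring_nf
    rw [← h1, Complex.ofReal_re]
  have hWi : Integrable W := by
    have : W = fun x => (F x).re := funext hWF
    rw [this]
    exact hF.re
  have hW0 : ∀ x, 0 ≤ W x := fun x => by positivity
  -- the bound of the integral by that of the Gaussian
  have h1 : ∫ α in Set.Ioc 0 B, ‖T (n + 1) P θ α‖ ^ 2 ≤ Real.exp Real.pi * ∫ x, W x := by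
    have h2 : ∫ α in Set.Ioc 0 B, ‖T (n + 1) P θ α‖ ^ 2
        ≤ ∫ α in Set.Ioc 0 B, Real.exp Real.pi * W α := by
      refine integral_mono_of_nonneg (Filter.Eventually.of_forall fun x => by positivity)
        ((hWi.const_mul _).integrableOn) ?_
      refine (ae_restrict_iff' measurableSet_Ioc).mpr (Filter.Eventually.of_forall fun x hx => ?_)
      simp only [W]
      rw [← mul_assoc, ← Real.exp_add]
      have h3 : 1 ≤ Real.exp (Real.pi + -b * x ^ 2) := by
        rw [← Real.exp_zero]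
        apply Real.exp_le_exp.mpr
        have h4 : b * x ^ 2 ≤ Real.pi := by
          rw [hb, div_mul_eq_mul_div, div_le_iff₀ (by positivity)]
          have : x ^ 2 ≤ B ^ 2 := pow_le_pow_left₀ hx.1.le hx.2 2
          exact mul_le_mul_of_nonneg_left this Real.pi_pos.le
        linarith
      nlinarith [sq_nonneg ‖T (n + 1) P θ x‖]
    refine h2.trans ?_
    rw [integral_const_mul]
    refine mul_le_mul_of_nonneg_left ?_ (Real.exp_pos _).le
    exact setIntegral_le_integral hWi (Filter.Eventually.of_forall hW0)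
  have h2 : ∫ x, W x ≤ ∑ y ∈ Ioc P (2 * P), ∑ z ∈ Ioc P (2 * P),
      B * Real.exp (-(Real.pi * sf y z ^ 2)) := by
    have h3 : ∫ x, W x = (∫ x, F x).re := by
      have : W = fun x => (F x).re := funext hWF
      rw [this]
      exact integral_re hF
    rw [h3]
    refine (Complex.re_le_norm _).trans ?_
    have h4 : ∫ x, F x = ∑ y ∈ Ioc P (2 * P), ∑ z ∈ Ioc P (2 * P), ∫ x, G y z x := by
      simp only [F]
      rw [integral_finsetSum _ fun y _ => integrable_finsetSum _ fun z _ => hG y z]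
      refine sum_congr rfl fun y _ => ?_
      rw [integral_finsetSum _ fun z _ => hG y z]
    rw [h4]
    refine (norm_sum_le _ _).trans (sum_le_sum fun y _ => ?_)
    refine (norm_sum_le _ _).trans (sum_le_sum fun z _ => ?_)
    exact (gauss_int hB (sf y z)).2
  have h3 : ∀ y ∈ Ioc P (2 * P), ∑ z ∈ Ioc P (2 * P), B * Real.exp (-(Real.pi * sf y z ^ 2))
      ≤ B * (Real.exp 1 * (2 * (1 + 1 / κ))) := by
    intro y hy
    have hy1 := (mem_Ioc.mp hy).1
    rw [← mul_sum]
    refine mul_le_mul_of_nonneg_left ?_ hB0.le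
    refine le_trans (sum_le_sum (g := fun z : ℕ => Real.exp 1 * Real.exp (-(κ * |(y : ℝ) - z|))) ?_) ?_
    · intro z hz
      have hz1 := (mem_Ioc.mp hz).1
      have hyP : (P : ℝ) ≤ y := by exact_mod_cast hy1.le
      have hzP : (P : ℝ) ≤ z := by exact_mod_cast hz1.le
      have h4 : κ * |(y : ℝ) - z| ≤ |sf y z| := by
        simp only [sf]
        rw [abs_mul, hκ, mul_assoc]
        refine mul_le_mul_of_nonneg_left ?_ (abs_nonneg _)
        rcases le_total (z : ℝ) y with h5 | h5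
        · have h6 := pow_diff n hP0.le hzP h5
          rw [abs_of_nonneg (sub_nonneg.mpr h5)]
          exact h6.trans (le_abs_self _)
        · have h6 := pow_diff n hP0.le hyP h5
          rw [abs_sub_comm, abs_sub_comm ((y : ℝ) ^ (n + 1)), abs_of_nonneg (sub_nonneg.mpr h5)]
          exact h6.trans (le_abs_self _)
      rw [← Real.exp_add]
      apply Real.exp_le_exp.mpr
      have h7 : sf y z ^ 2 = |sf y z| ^ 2 := (sq_abs _).symm
      have h8 : |sf y z| ≤ 1 + 3 * |sf y z| ^ 2 := by nlinarith [sq_nonneg (|sf y z| - 1), abs_nonneg (sf y z)]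
      have h9 : 3 * |sf y z| ^ 2 ≤ Real.pi * |sf y z| ^ 2 :=
        mul_le_mul_of_nonneg_right Real.pi_gt_three.le (sq_nonneg _)
      rw [h7]
      linarith
    · rw [← mul_sum]
      exact mul_le_mul_of_nonneg_left (sum_abs_bound hκ0 P y) (Real.exp_pos _).le
  have h4 : ∫ x, W x ≤ P * (B * (Real.exp 1 * (2 * (1 + 1 / κ)))) := by
    refine h2.trans ((sum_le_sum h3).trans ?_)
    rw [sum_const, Nat.card_Ioc, nsmul_eq_mul]
    have : 2 * P - P = P := by omega
    rw [this]
  refine h1.trans ((mul_le_mul_of_nonneg_left h4 (Real.exp_pos _).le).trans_eq ?_)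
  ring

end Pool.Agent.Helper11W
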