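import Pool.Agent.Helper11W.Bad
import Pool.Agent.Helper11W.Fou
import Pool.Agent.Helper11W.TMs
import Pool.Agent.Helper11W.Cnt
import Pool.Agent.Helper11W.Ker

/-!
# Borel-Cantelli and the theorem
-/

set_option autoImplicit false

namespace Pool.Agent.Helper11W

open MeasureTheory Finset

/-- if `T(1, a)` is small then the weight sum is large -/
theorem psi_sum (k P : ℕ) (a : ℝ) (h : ‖T k P 1 a‖ ^ 2 < (P : ℝ) ^ 2 / 4) :
    (P : ℝ) / 4 ≤ ∑ y ∈ Ioc P (2 * P), psi (a * (y : ℝ) ^ k) := by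
  have h1 : ‖T k P 1 a‖ < P / 2 := by
    refine lt_of_pow_lt_pow_left₀ 2 (by positivity) ?_
    calc _ < (P : ℝ) ^ 2 / 4 := h
      _ = (P / 2 : ℝ) ^ 2 := by ring
  have h2 : (T k P 1 a).re ≤ P / 2 := (Complex.re_le_norm _).trans h1.le
  have h3 : ∑ y ∈ Ioc P (2 * P), psi (a * (y : ℝ) ^ k) = P / 2 - (T k P 1 a).re / 2 := by
    unfold T psi
    rw [Complex.re_sum]
    have e1 : ∀ y ∈ Ioc P (2 * P), Real.sin (Real.pi * (a * (y : ℝ) ^ k)) ^ 2 =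
        1 / 2 - (e (1 * (a * (y : ℝ) ^ k))).re / 2 := by
      intro y _
      have e2 : (e (1 * (a * (y : ℝ) ^ k))).re = Real.cos (2 * (Real.pi * (a * (y : ℝ) ^ k))) := by
        unfold e
        rw [show (2 * Real.pi * ((1 * (a * (y : ℝ) ^ k) : ℝ) : ℂ) * Complex.I : ℂ) =
          ((2 * (Real.pi * (a * (y : ℝ) ^ k)) : ℝ) : ℂ) * Complex.I by push_cast; ring,
          Complex.exp_ofReal_mul_I_re]
      rw [e2, Real.cos_two_mul', Real.cos_sq']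
      ring
    rw [sum_congr rfl e1, sum_sub_distrib, sum_const, Nat.card_Ioc, nsmul_eq_mul, ← sum_div]
    have : 2 * P - P = P := by omega
    rw [this]; ring
  rw [h3]; linarith

theorem integrable_T2 (k P B : ℕ) :
    Integrable (fun a => ‖T k P 1 a‖ ^ 2) (volume.restrict (Set.Ioc (0 : ℝ) B)) :=
  (((continuous_T k P 1).norm.pow 2).integrableOn_Icc (a := 0) (b := (B : ℝ))).mono_set Set.Ioc_subset_Icc_self

/-- the weight sums -/
theorem int_T (k m B : ℕ) (hk : 2 ≤ k) (hB : 1 ≤ B) (hT : TStm) : ∃ C3 : ℝ, 0 < C3 ∧ ∀ P : ℕ, 1 ≤ P →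
    ∀ i : Fin m, Integrable (fun α : Fin m → ℝ => ‖T k P 1 (α i)‖ ^ 2) (mu m B) ∧
    ∫ α, ‖T k P 1 (α i)‖ ^ 2 ∂(mu m B) ≤ C3 * P := by
  obtain ⟨C, hC, h⟩ := hT k B (by omega) (by exact_mod_cast hB)
  have hBR : (0 : ℝ) < B := by exact_mod_cast hB
  refine ⟨C * 2 * (B : ℝ) ^ (m - 1), by positivity, fun P hP i => ⟨?_, ?_⟩⟩
  · unfold mu
    exact integrable_comp_eval (μ := fun _ : Fin m => volume.restrict (Set.Ioc (0 : ℝ) B))
      (f := fun a => ‖T k P 1 a‖ ^ 2) (integrable_T2 k P B)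
  · have h1 : ∀ α : Fin m → ℝ, ‖T k P 1 (α i)‖ ^ 2 =
        ∏ j, (fun (j : Fin m) (a : ℝ) => if j = i then ‖T k P 1 a‖ ^ 2 else 1) j (α j) := by
      intro α
      simp only
      rw [prod_ite_eq' univ i (fun j => ‖T k P 1 (α j)‖ ^ 2)]
      simp
    unfold mu
    rw [integral_congr_ae (Filter.Eventually.of_forall h1),
      integral_fintype_prod_eq_prod (fun (j : Fin m) (a : ℝ) => if j = i then ‖T k P 1 a‖ ^ 2 else (1 : ℝ))]
    rw [← mul_prod_erase univ _ (mem_univ i)]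
    have h2 : ∏ x ∈ univ.erase i, ∫ a in Set.Ioc (0 : ℝ) B, (if x = i then ‖T k P 1 a‖ ^ 2 else 1) =
        (B : ℝ) ^ (m - 1) := by
      have h3 : ∀ x ∈ univ.erase i, ∫ a in Set.Ioc (0 : ℝ) B, (if x = i then ‖T k P 1 a‖ ^ 2 else 1) = (B : ℝ) := by
        intro x hx
        have hxi : x ≠ i := ne_of_mem_erase hx
        simp only [hxi, if_false]
        rw [integral_const, vol_Ioc, smul_eq_mul, mul_one]
      rw [prod_congr rfl h3, prod_const, card_erase_of_mem (mem_univ i), card_univ, Fintype.card_fin]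
    rw [h2]
    simp only [if_true]
    have h4 := h P hP 1 one_ne_zero
    have hPR : (1 : ℝ) ≤ P := by exact_mod_cast hP
    have h5 : 1 / (|(1 : ℝ)| * (P : ℝ) ^ (k - 1)) ≤ 1 := by
      rw [abs_one, one_mul, div_le_one (by positivity)]
      exact one_le_pow₀ hPR
    have h6 : ∫ a in Set.Ioc (0 : ℝ) B, ‖T k P 1 a‖ ^ 2 ≤ C * P * 2 := by
      refine h4.trans (mul_le_mul_of_nonneg_left (by linarith) (by positivity))
    calc _ ≤ C * P * 2 * (B : ℝ) ^ (m - 1) := mul_le_mul_of_nonneg_right h6 (by positivity)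
      _ = _ := by ring

/-- the exceptional set -/
def BadSet (k v m B : ℕ) (c : ℝ) (p : ℕ) : Set (Fin m → ℝ) :=
  {α | Am k v m B (p ^ LL k) c / 2 ≤ Lam k v m B (p ^ LL k) (p ^ (LL k - 1)) α} ∪
  {α | Am k v m B (p ^ LL k) c ^ 2 / 4 ≤ Xi k v m B (p ^ LL k) (p ^ (LL k - 1)) α} ∪
  ⋃ i : Fin m, {α | ((p ^ LL k : ℕ) : ℝ) ^ 2 / 4 ≤ ‖T k (p ^ LL k) 1 (α i)‖ ^ 2}

theorem Am_ge (k v m B : ℕ) (hk : 2 ≤ k) (hm : m + v = 2 * k) (hB : 1 ≤ B) (c : ℝ) (hc : 0 < c) :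
    ∃ cA : ℝ, 0 < cA ∧ ∀ P : ℕ, 1 ≤ P → cA * (P : ℝ) ^ (k + 1) ≤ Am k v m B P c := by
  have hCQ := CQ_ge k B hk hB
  refine ⟨c / (4 * CQ k B * 4 ^ m), by positivity, fun P hP => ?_⟩
  have hPR : (1 : ℝ) ≤ P := by exact_mod_cast hP
  unfold Am
  have h1 : c * (P : ℝ) ^ (v + 1) / (4 * (CQ k B * (P : ℝ) ^ k)) ≤ c * (P : ℝ) ^ (v + 1) / (4 * QQ k B P) := by
    refine div_le_div_of_nonneg_left (by positivity) (by have := QQ_pos k B P; positivity) ?_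
    exact mul_le_mul_of_nonneg_left (QQ_le k B P hk hB hP) (by norm_num)
  have h2 : (P : ℝ) ^ (v + 1) * (P : ℝ) ^ m = (P : ℝ) ^ (k + 1) * (P : ℝ) ^ k := by
    rw [← pow_add, ← pow_add]; congr 1; omega
  calc c / (4 * CQ k B * 4 ^ m) * (P : ℝ) ^ (k + 1)
      = c / (4 * CQ k B * 4 ^ m) * ((P : ℝ) ^ (k + 1) * (P : ℝ) ^ k) / (P : ℝ) ^ k := by field_simp
    _ = c * (P : ℝ) ^ (v + 1) / (4 * (CQ k B * (P : ℝ) ^ k)) * (P / 4 : ℝ) ^ m := by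
        rw [← h2, div_pow]; field_simp
    _ ≤ _ := mul_le_mul_of_nonneg_right h1 (by positivity)

theorem bad_small (k v m B : ℕ) (hk : 2 ≤ k) (hv : v ≤ 2) (hvk : v + 1 ≤ k) (hm : m + v = 2 * k) (hB : 1 ≤ B)
    (hT : TStm) (hS : SStm) (hE : EnergyStm) (c : ℝ) (hc : 0 < c) :
    ∃ C4 : ℝ, 0 < C4 ∧ ∀ p : ℕ, 1 ≤ p → (mu m B).real (BadSet k v m B c p) ≤ C4 / (p : ℝ) ^ 2 := by
  obtain ⟨C1, hC1, h1⟩ := int_Lam k v m B hk hm (by omega) hB hS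
  obtain ⟨C2, hC2, h2⟩ := int_Xi k v m B hk hv hvk hm hB hS hE
  obtain ⟨C3, hC3, h3⟩ := int_T k m B hk hB hT
  obtain ⟨cA, hcA, h4⟩ := Am_ge k v m B hk hm hB c hc
  have hLL : 8 ≤ LL k := by unfold LL; omega
  refine ⟨2 * C1 / cA + 4 * C2 / cA ^ 2 + m * (4 * C3), by positivity, fun p hp => ?_⟩
  have hP1 : 1 ≤ p ^ LL k := Nat.one_le_pow _ _ hp
  set P := p ^ LL k with hP
  set J := p ^ (LL k - 1) with hJ
  have hPR : (1 : ℝ) ≤ P := by exact_mod_cast hP1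
  have hpR : (1 : ℝ) ≤ p := by exact_mod_cast hp
  have hA := h4 P hP1
  have hA0 : 0 < cA * (P : ℝ) ^ (k + 1) := by positivity
  have hAp : 0 < Am k v m B P c := lt_of_lt_of_le hA0 hA
  have m1 : (mu m B).real {α | Am k v m B P c / 2 ≤ Lam k v m B P J α} ≤ 2 * C1 / cA / (p : ℝ) ^ 2 := by
    obtain ⟨i1, i2⟩ := h1 p hp
    have hL0 : ∀ α, 0 ≤ Lam k v m B P J α := by
      intro α
      unfold Lam
      have := QQ_pos k B P
      refine mul_nonneg (by positivity) (sum_nonneg fun j _ => ?_)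
      have : 0 ≤ ∏ i, ‖S k P (j / QQ k B P) (α i)‖ := prod_nonneg fun i _ => norm_nonneg _
      positivity
    have i3 := mul_meas_ge_le_integral_of_nonneg (Filter.Eventually.of_forall hL0) i1 (Am k v m B P c / 2)
    have i4 : (cA * (P : ℝ) ^ (k + 1) / 2) * (mu m B).real {α | Am k v m B P c / 2 ≤ Lam k v m B P J α} ≤
        C1 * (P : ℝ) ^ (k + 1) / (p : ℝ) ^ 2 :=
      (mul_le_mul_of_nonneg_right (by linarith) measureReal_nonneg).trans (i3.trans i2)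
    rw [div_div, le_div_iff₀ (by positivity)]
    have i5 : (cA * (P : ℝ) ^ (k + 1) / 2) * (mu m B).real {α | Am k v m B P c / 2 ≤ Lam k v m B P J α} * (p : ℝ) ^ 2 ≤
        C1 * (P : ℝ) ^ (k + 1) := by
      rw [le_div_iff₀ (by positivity)] at i4; exact i4
    have i6 : (P : ℝ) ^ (k + 1) * ((mu m B).real {α | Am k v m B P c / 2 ≤ Lam k v m B P J α} * (cA * (p : ℝ) ^ 2)) ≤
        (P : ℝ) ^ (k + 1) * (2 * C1) := by nlinarith
    exact le_of_mul_le_mul_left i6 (by positivity)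
  have m2 : (mu m B).real {α | Am k v m B P c ^ 2 / 4 ≤ Xi k v m B P J α} ≤ 4 * C2 / cA ^ 2 / (p : ℝ) ^ 2 := by
    obtain ⟨i1, i2⟩ := h2 p hp
    have hL0 : ∀ α, 0 ≤ Xi k v m B P J α := by
      intro α
      unfold Xi
      have := QQ_pos k B P
      refine mul_nonneg (by positivity) (sum_nonneg fun j _ => ?_)
      have : 0 ≤ ∏ i, ‖S k P (j / QQ k B P) (α i)‖ ^ 2 := prod_nonneg fun i _ => sq_nonneg _
      positivity
    have i3 := mul_meas_ge_le_integral_of_nonneg (Filter.Eventually.of_forall hL0) i1 (Am k v m B P c ^ 2 / 4)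
    have hA2 : cA ^ 2 * (P : ℝ) ^ (2 * k + 2) ≤ Am k v m B P c ^ 2 := by
      calc cA ^ 2 * (P : ℝ) ^ (2 * k + 2) = (cA * (P : ℝ) ^ (k + 1)) ^ 2 := by rw [mul_pow, ← pow_mul]; ring_nf
        _ ≤ _ := pow_le_pow_left₀ hA0.le hA 2
    have i4 : (cA ^ 2 * (P : ℝ) ^ (2 * k + 2) / 4) * (mu m B).real {α | Am k v m B P c ^ 2 / 4 ≤ Xi k v m B P J α} ≤
        C2 * (P : ℝ) ^ (2 * k + 2) / (p : ℝ) ^ 2 :=
      (mul_le_mul_of_nonneg_right (by linarith) measureReal_nonneg).trans (i3.trans i2)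
    rw [div_div, le_div_iff₀ (by positivity)]
    have i5 : (cA ^ 2 * (P : ℝ) ^ (2 * k + 2) / 4) * (mu m B).real {α | Am k v m B P c ^ 2 / 4 ≤ Xi k v m B P J α} *
        (p : ℝ) ^ 2 ≤ C2 * (P : ℝ) ^ (2 * k + 2) := by
      rw [le_div_iff₀ (by positivity)] at i4; exact i4
    have i6 : (P : ℝ) ^ (2 * k + 2) * ((mu m B).real {α | Am k v m B P c ^ 2 / 4 ≤ Xi k v m B P J α} *
        (cA ^ 2 * (p : ℝ) ^ 2)) ≤ (P : ℝ) ^ (2 * k + 2) * (4 * C2) := by nlinarith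
    exact le_of_mul_le_mul_left i6 (by positivity)
  have m3 : ∀ i : Fin m, (mu m B).real {α | (P : ℝ) ^ 2 / 4 ≤ ‖T k P 1 (α i)‖ ^ 2} ≤ 4 * C3 / (p : ℝ) ^ 2 := by
    intro i
    obtain ⟨i1, i2⟩ := h3 P hP1 i
    have i3 := mul_meas_ge_le_integral_of_nonneg (μ := mu m B) (Filter.Eventually.of_forall fun α => by positivity) i1
      ((P : ℝ) ^ 2 / 4)
    have hpP : (p : ℝ) ^ 2 ≤ P := by
      have : p ^ 2 ≤ P := by rw [hP]; exact Nat.pow_le_pow_right hp (by omega)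
      exact_mod_cast this
    set M := (mu m B).real {α | (P : ℝ) ^ 2 / 4 ≤ ‖T k P 1 (α i)‖ ^ 2} with hM
    have hM0 : 0 ≤ M := measureReal_nonneg
    have i4 : (P : ℝ) ^ 2 / 4 * M ≤ C3 * P := i3.trans i2
    have i5 : (P : ℝ) * (P * M) ≤ P * (4 * C3) := by nlinarith
    have i6 : (P : ℝ) * M ≤ 4 * C3 := le_of_mul_le_mul_left i5 (by positivity)
    rw [le_div_iff₀ (by positivity)]
    calc M * (p : ℝ) ^ 2 ≤ M * P := mul_le_mul_of_nonneg_left hpP hM0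
      _ ≤ 4 * C3 := by linarith
  unfold BadSet
  rw [← hP, ← hJ]
  refine (measureReal_union_le _ _).trans ?_
  refine (add_le_add (measureReal_union_le _ _) (measureReal_iUnion_fintype_le _)).trans ?_
  have m4 : ∑ i : Fin m, (mu m B).real {α | (P : ℝ) ^ 2 / 4 ≤ ‖T k P 1 (α i)‖ ^ 2} ≤
      m * (4 * C3 / (p : ℝ) ^ 2) := by
    refine (sum_le_sum fun i _ => m3 i).trans ?_
    rw [sum_const, card_univ, Fintype.card_fin, nsmul_eq_mul]
  calc _ ≤ 2 * C1 / cA / (p : ℝ) ^ 2 + 4 * C2 / cA ^ 2 / (p : ℝ) ^ 2 + m * (4 * C3 / (p : ℝ) ^ 2) :=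
        add_le_add (add_le_add m1 m2) m4
    _ = _ := by ring

/-- the theorem on a box -/
theorem on_box (k v m B : ℕ) (hk : 2 ≤ k) (hv : v ≤ 2) (hvk : v + 1 ≤ k) (hm : m + v = 2 * k) (hB : 1 ≤ B)
    (hF : FourierStm) (hT : TStm) (hK : KernelStm) (hC : CountStm) (hE : EnergyStm) :
    ∀ᵐ α ∂(mu m B), ∃ N : ℕ, ∀ n : ℕ, N ≤ n → ∃ x : ℕ, 1 ≤ x ∧ ∃ z : Fin v → ℕ, (∀ i, 1 ≤ z i) ∧
      ∃ y : Fin m → ℕ, (∀ i, 1 ≤ y i) ∧
        (n : ℤ) = (x : ℤ) ^ k + ∑ i, (z i : ℤ) ^ k + ∑ i, ⌊α i * (y i : ℝ) ^ k⌋ := by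
  have hS := sms hF hT
  obtain ⟨c, hc, P₀, hdet⟩ := det k v m B hk hv hm hB hK hC
  obtain ⟨C4, hC4, hbad⟩ := bad_small k v m B hk hv hvk hm hB hT hS hE c hc
  have hsum : (∑' p : ℕ, (mu m B) (BadSet k v m B c (p + 1))) ≠ ⊤ := by
    have h1 : ∀ p : ℕ, (mu m B) (BadSet k v m B c (p + 1)) ≤ ENNReal.ofReal (C4 * (1 / ((p + 1 : ℕ) : ℝ) ^ 2)) := by
      intro p
      have h2 := hbad (p + 1) (by omega)
      rw [← ofReal_measureReal (μ := mu m B) (s := BadSet k v m B c (p + 1))]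
      refine ENNReal.ofReal_le_ofReal (h2.trans (le_of_eq ?_))
      ring
    have h3 : Summable (fun p : ℕ => C4 * (1 / ((p + 1 : ℕ) : ℝ) ^ 2)) := by
      refine Summable.mul_left _ ?_
      exact (summable_nat_add_iff 1).mpr (Real.summable_one_div_nat_pow.mpr (by norm_num : 1 < 2))
    exact ne_top_of_le_ne_top h3.tsum_ofReal_ne_top (ENNReal.tsum_le_tsum h1)
  have hae := ae_eventually_notMem hsum
  have hbox : ∀ᵐ α ∂(mu m B), ∀ i, 0 < α i ∧ α i ≤ (B : ℝ) := by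
    unfold mu
    rw [← Measure.restrict_pi_pi]
    rw [ae_restrict_iff' (MeasurableSet.univ_pi fun _ => measurableSet_Ioc)]
    refine Filter.Eventually.of_forall fun α hα i => ?_
    exact hα i (Set.mem_univ i)
  filter_upwards [hae, hbox] with α h1 h2
  rw [Filter.eventually_atTop] at h1
  obtain ⟨p₁, hp₁⟩ := h1
  set p₂ := max (p₁ + 1) (max P₀ 1) with hp₂
  have hLL : 8 ≤ LL k := by unfold LL; omega
  refine ⟨KK k B * (p₂ ^ LL k) ^ k, fun n hn => ?_⟩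
  -- find p
  have hkk : LL k * k ≠ 0 := by positivity
  have hKK1 : 1 ≤ KK k B := by
    have hk0 : 0 < k := by omega
    have hB0 : 0 < B := by omega
    exact Nat.succ_le_of_lt (by unfold KK; positivity)
  have hex : ∃ q : ℕ, n < KK k B * (q ^ LL k) ^ k := by
    refine ⟨n + 1, ?_⟩
    rw [← pow_mul]
    calc n < n + 1 := Nat.lt_succ_self n
      _ ≤ (n + 1) ^ (LL k * k) := Nat.le_self_pow hkk _
      _ ≤ KK k B * (n + 1) ^ (LL k * k) := Nat.le_mul_of_pos_left _ hKK1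
  have hq := Nat.find_spec hex
  set q := Nat.find hex with hqd
  have hq2 : p₂ < q := by
    by_contra hle
    push Not at hle
    have : KK k B * (q ^ LL k) ^ k ≤ KK k B * (p₂ ^ LL k) ^ k := by gcongr
    omega
  obtain ⟨p, hpq⟩ : ∃ p, q = p + 1 := ⟨q - 1, by omega⟩
  have hp1 : KK k B * (p ^ LL k) ^ k ≤ n := by
    have := Nat.find_min hex (m := p) (by omega)
    omega
  have hpp : p₂ ≤ p := by omega
  have hpge1 : 1 ≤ p := by
    have : 1 ≤ p₂ := le_trans (le_max_right _ _) (le_max_right _ _)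
    omega
  have hpP0 : P₀ ≤ p := by
    have : P₀ ≤ p₂ := le_trans (le_max_left _ _) (le_max_right _ _)
    omega
  have hpp1 : p₁ + 1 ≤ p := le_trans (le_max_left _ _) hpp
  have hnb : α ∉ BadSet k v m B c p := by
    have := hp₁ (p - 1) (by omega)
    rwa [show p - 1 + 1 = p by omega] at this
  have hJ1 : 1 ≤ p ^ (LL k - 1) := Nat.one_le_pow _ _ hpge1
  have hPJ : p ^ LL k = p * p ^ (LL k - 1) := by rw [← pow_succ', Nat.sub_add_cancel (by omega : 1 ≤ LL k)]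
  have hPJ0 : P₀ * p ^ (LL k - 1) ≤ p ^ LL k := by rw [hPJ]; exact Nat.mul_le_mul_right _ hpP0
  have hJP : p ^ (LL k - 1) ≤ p ^ LL k := by rw [hPJ]; exact Nat.le_mul_of_pos_left _ hpge1
  unfold BadSet at hnb
  simp only [Set.mem_union, Set.mem_ofPred_eq, Set.mem_iUnion, not_or, not_le, not_exists] at hnb
  obtain ⟨⟨b1, b2⟩, b3⟩ := hnb
  refine hdet (p ^ LL k) (p ^ (LL k - 1)) hJ1 hPJ0 hJP n (by exact_mod_cast hp1) ?_ α h2
    (fun i => psi_sum k _ _ (b3 i)) b1 b2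
  have h5 : n ≤ KX k B * (p ^ LL k) ^ k := by
    have h6 : (q ^ LL k) ^ k ≤ 2 ^ (LL k * k) * (p ^ LL k) ^ k := by
      rw [← pow_mul, ← pow_mul, ← mul_pow, hpq]
      exact Nat.pow_le_pow_left (by omega) _
    calc n ≤ KK k B * (q ^ LL k) ^ k := hq.le
      _ ≤ KK k B * (2 ^ (LL k * k) * (p ^ LL k) ^ k) := Nat.mul_le_mul_left _ h6
      _ = KX k B * (p ^ LL k) ^ k := by unfold KX; ring
  exact_mod_cast h5

/-- The theorem, given the moment bound. -/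
theorem main_of (hE : EnergyStm) (k u : ℕ) (hk : 2 ≤ k) (hu1 : 1 ≤ u) (hu3 : u ≤ 3) (huk : u ≤ k) :
    ∀ᵐ a : Fin (2 * k + 1 - u) → ℝ, (∀ i, 0 < a i) → ∃ N : ℕ, ∀ n : ℕ, N ≤ n →
      ∃ x : Fin u → ℕ, (∀ i, 0 < x i) ∧ ∃ y : Fin (2 * k + 1 - u) → ℕ, (∀ i, 0 < y i) ∧
        (n : ℤ) = ∑ i, (x i : ℤ) ^ k + ∑ i, ⌊a i * (y i : ℝ) ^ k⌋ := by
  obtain ⟨v, rfl⟩ : ∃ v, u = v + 1 := ⟨u - 1, by omega⟩
  obtain ⟨m, hm⟩ : ∃ m, 2 * k + 1 - (v + 1) = m := ⟨_, rfl⟩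
  rw [hm]
  have hm2 : m + v = 2 * k := by omega
  have h1 : ∀ B : ℕ, 1 ≤ B → ∀ᵐ a : Fin m → ℝ, (∀ i, 0 < a i ∧ a i ≤ B) → ∃ N : ℕ, ∀ n : ℕ, N ≤ n →
      ∃ x : ℕ, 0 < x ∧ ∃ z : Fin v → ℕ, (∀ i, 0 < z i) ∧ ∃ y : Fin m → ℕ, (∀ i, 0 < y i) ∧
        (n : ℤ) = (x : ℤ) ^ k + ∑ i, (z i : ℤ) ^ k + ∑ i, ⌊a i * (y i : ℝ) ^ k⌋ := by
    intro B hB
    have h2 := on_box k v m B hk (by omega) huk hm2 hB fourier tms kernel count hE
    unfold mu at h2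
    rw [← Measure.restrict_pi_pi, ae_restrict_iff' (MeasurableSet.univ_pi fun _ => measurableSet_Ioc)] at h2
    filter_upwards [h2] with a ha hab
    exact ha (fun i _ => hab i)
  have h3 : ∀ᵐ a : Fin m → ℝ, ∀ B : ℕ, 1 ≤ B → (∀ i, 0 < a i ∧ a i ≤ B) → ∃ N : ℕ, ∀ n : ℕ, N ≤ n →
      ∃ x : ℕ, 0 < x ∧ ∃ z : Fin v → ℕ, (∀ i, 0 < z i) ∧ ∃ y : Fin m → ℕ, (∀ i, 0 < y i) ∧
        (n : ℤ) = (x : ℤ) ^ k + ∑ i, (z i : ℤ) ^ k + ∑ i, ⌊a i * (y i : ℝ) ^ k⌋ := by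
    rw [ae_all_iff]
    intro B
    by_cases hB : 1 ≤ B
    · filter_upwards [h1 B hB] with a ha _ using ha
    · exact Filter.Eventually.of_forall fun a h => absurd h hB
  filter_upwards [h3] with a ha hpos
  obtain ⟨M, hM⟩ := exists_nat_ge (∑ i, a i)
  obtain ⟨N, hN⟩ := ha (max M 1) (le_max_right _ _) fun i => ⟨hpos i, by
    calc a i ≤ ∑ i, a i := single_le_sum (fun j _ => (hpos j).le) (mem_univ i)
      _ ≤ M := hM
      _ ≤ (max M 1 : ℕ) := by exact_mod_cast le_max_left _ _⟩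
  refine ⟨N, fun n hn => ?_⟩
  obtain ⟨x, hx, z, hz, y, hy, hn⟩ := hN n hn
  refine ⟨Fin.cons x z, fun i => ?_, y, hy, ?_⟩
  · refine Fin.cases ?_ (fun i => ?_) i
    · simpa using hx
    · simpa using hz i
  · rw [hn, Fin.sum_univ_succ]
    simp

end Pool.Agent.Helper11W
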