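import Pool.Agent.Helper11W.Stm

/-!
# Mean square of `S` from the Fourier expansion and the mean square of `T`
-/

set_option autoImplicit false

namespace Pool.Agent.Helper11W

open MeasureTheory Finset

theorem e_add (x y : ℝ) : e (x + y) = e x * e y := by
  unfold e; rw [← Complex.exp_add]; congr 1; push_cast; ring

theorem norm_e (x : ℝ) : ‖e x‖ = 1 := by
  unfold e
  rw [show (2 * Real.pi * x * Complex.I : ℂ) = ((2 * Real.pi * x : ℝ) : ℂ) * Complex.I by push_cast; ring]
  exact Complex.norm_exp_ofReal_mul_I _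

theorem continuous_e : Continuous e := by
  unfold e; fun_prop

theorem e_int (n : ℤ) : e n = 1 := by
  unfold e
  rw [show (2 * Real.pi * (n : ℝ) * Complex.I : ℂ) = n * (2 * Real.pi * Complex.I) by push_cast; ring]
  exact Complex.exp_int_mul_two_pi_mul_I n

theorem continuous_T (k P : ℕ) (θ : ℝ) : Continuous (T k P θ) := by
  unfold T
  refine continuous_finset_sum _ fun y _ => continuous_e.comp (by fun_prop)

theorem norm_T_le (k P : ℕ) (θ α : ℝ) : ‖T k P θ α‖ ≤ P := by
  unfold T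
  refine (norm_sum_le _ _).trans ?_
  simp only [norm_e, sum_const, Nat.card_Ioc, nsmul_eq_mul, mul_one]
  have : 2 * P - P = P := by omega
  rw [this]

theorem tsum_sq_le (a b : ℤ → ℝ) (ha : ∀ h, 0 ≤ a h) (hs : Summable a) (hb : ∀ h, 0 ≤ b h) (M : ℝ)
    (hM : ∀ h, b h ≤ M) : (∑' h, a h * b h) ^ 2 ≤ (∑' h, a h) * ∑' h, a h * b h ^ 2 := by
  have s1 : Summable (fun h => a h * b h) := by
    refine Summable.of_nonneg_of_le (fun h => mul_nonneg (ha h) (hb h)) (fun h => ?_) (hs.mul_right M)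
    exact mul_le_mul_of_nonneg_left (hM h) (ha h)
  have s2 : Summable (fun h => a h * b h ^ 2) := by
    refine Summable.of_nonneg_of_le (fun h => mul_nonneg (ha h) (sq_nonneg _)) (fun h => ?_) (hs.mul_right (M ^ 2))
    exact mul_le_mul_of_nonneg_left (pow_le_pow_left₀ (hb h) (hM h) 2) (ha h)
  have key : ∀ z : ℝ, 0 ≤ (∑' h, a h) * (z * z) + (-2 * ∑' h, a h * b h) * z + ∑' h, a h * b h ^ 2 := by
    intro z
    have h1 : 0 ≤ ∑' h, a h * (b h - z) ^ 2 := tsum_nonneg fun h => mul_nonneg (ha h) (sq_nonneg _)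
    have h2 : ∑' h, a h * (b h - z) ^ 2 =
        (∑' h, a h) * (z * z) + (-2 * ∑' h, a h * b h) * z + ∑' h, a h * b h ^ 2 := by
      have e1 : ∀ h, a h * (b h - z) ^ 2 = (a h * b h ^ 2 - 2 * z * (a h * b h)) + z ^ 2 * a h := by
        intro h; ring
      simp_rw [e1]
      rw [Summable.tsum_add (s2.sub (s1.mul_left _)) (hs.mul_left _), Summable.tsum_sub s2 (s1.mul_left _),
        tsum_mul_left, tsum_mul_left]
      ring
    rw [← h2]; exact h1
  have := discrim_le_zero key
  unfold discrim at this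
  nlinarith

theorem sms (hF : FourierStm) (hT : TStm) : SStm := by
  intro k B hk hB
  obtain ⟨C₀, hC₀, hF⟩ := hF
  obtain ⟨CT, hCT, hT⟩ := hT k B hk hB
  refine ⟨C₀ * (C₀ * CT), by positivity, fun P hP t ht0 ht => ?_⟩
  obtain ⟨c, hc1, hc2, hc3⟩ := hF t ht
  have hPp : (0 : ℝ) < (P : ℝ) ^ (k - 1) := by positivity
  have hnz : ∀ h : ℤ, t + h ≠ 0 := by
    intro h h0
    have h1 : |(h : ℝ)| ≤ 1 / 2 := by
      have : (h : ℝ) = -t := by linarith
      rw [this, abs_neg]; exact ht
    have h2 : h = 0 := by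
      by_contra hne
      have : (1 : ℝ) ≤ |(h : ℝ)| := by exact_mod_cast Int.one_le_abs hne
      linarith
    rw [h2] at h0; simp at h0; exact ht0 h0
  have hge : ∀ h : ℤ, |t| ≤ |t + h| := by
    intro h
    by_cases h0 : h = 0
    · rw [h0]; simp
    · have h1 : (1 : ℝ) ≤ |(h : ℝ)| := by exact_mod_cast Int.one_le_abs h0
      have h2 : |(h : ℝ)| ≤ |t + h| + |t| := by
        have := abs_sub (t + (h : ℝ)) t
        rw [add_sub_cancel_left] at this; exact this
      linarith
  have hS : ∀ α, HasSum (fun h : ℤ => c h * T k P (t + h) α) (S k P t α) := by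
    intro α
    unfold S T
    have := hasSum_sum (s := Ioc P (2 * P)) (f := fun (y : ℕ) (h : ℤ) => c h * e ((t + h) * (α * (y : ℝ) ^ k)))
      (a := fun y => ((Real.sin (Real.pi * (α * (y : ℝ) ^ k)) ^ 2 : ℝ) : ℂ) * e (t * ⌊α * (y : ℝ) ^ k⌋))
      (fun y _ => hc3 (α * (y : ℝ) ^ k))
    simpa only [mul_sum] using this
  have hpt : ∀ α, ‖S k P t α‖ ^ 2 ≤ C₀ * ∑' h : ℤ, ‖c h‖ * ‖T k P (t + h) α‖ ^ 2 := by
    intro α
    have s1 : Summable (fun h : ℤ => ‖c h‖ * ‖T k P (t + h) α‖) := by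
      refine Summable.of_nonneg_of_le (fun h => by positivity) (fun h => ?_) (hc1.mul_right (P : ℝ))
      exact mul_le_mul_of_nonneg_left (norm_T_le k P _ α) (norm_nonneg _)
    have h1 : ‖S k P t α‖ ≤ ∑' h : ℤ, ‖c h‖ * ‖T k P (t + h) α‖ := by
      rw [← (hS α).tsum_eq]
      have := norm_tsum_le_tsum_norm (f := fun h : ℤ => c h * T k P (t + h) α) (by simpa only [norm_mul] using s1)
      simpa only [norm_mul] using this
    have h2 := tsum_sq_le (fun h => ‖c h‖) (fun h => ‖T k P (t + h) α‖) (fun h => norm_nonneg _) hc1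
      (fun h => norm_nonneg _) P (fun h => norm_T_le k P _ α)
    calc ‖S k P t α‖ ^ 2 ≤ (∑' h : ℤ, ‖c h‖ * ‖T k P (t + h) α‖) ^ 2 := pow_le_pow_left₀ (norm_nonneg _) h1 2
      _ ≤ _ := h2
      _ ≤ _ := mul_le_mul_of_nonneg_right hc2 (tsum_nonneg fun h => by positivity)
  have hcont : Continuous (fun α => ∑' h : ℤ, ‖c h‖ * ‖T k P (t + h) α‖ ^ 2) := by
    refine continuous_tsum (u := fun h => ‖c h‖ * (P : ℝ) ^ 2) (fun h => ?_) (hc1.mul_right _) (fun h α => ?_)
    · exact continuous_const.mul ((continuous_T k P _).norm.pow 2)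
    · rw [Real.norm_of_nonneg (by positivity)]
      exact mul_le_mul_of_nonneg_left (pow_le_pow_left₀ (norm_nonneg _) (norm_T_le k P _ α) 2) (norm_nonneg _)
  have hint : ∀ h : ℤ, ∫ α in Set.Ioc 0 B, ‖T k P (t + h) α‖ ^ 2 ≤ CT * P * (1 + 1 / (|t| * (P : ℝ) ^ (k - 1))) := by
    intro h
    refine (hT P hP (t + h) (hnz h)).trans ?_
    have htp : 0 < |t| := abs_pos.mpr ht0
    have : 1 / (|t + h| * (P : ℝ) ^ (k - 1)) ≤ 1 / (|t| * (P : ℝ) ^ (k - 1)) :=
      one_div_le_one_div_of_le (by positivity) (mul_le_mul_of_nonneg_right (hge h) hPp.le)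
    have h3 : (0 : ℝ) ≤ CT * P := by positivity
    nlinarith
  set E : ℝ := CT * P * (1 + 1 / (|t| * (P : ℝ) ^ (k - 1))) with hE
  have hE0 : 0 ≤ E := by positivity
  calc ∫ α in Set.Ioc 0 B, ‖S k P t α‖ ^ 2
      ≤ ∫ α in Set.Ioc 0 B, C₀ * ∑' h : ℤ, ‖c h‖ * ‖T k P (t + h) α‖ ^ 2 := by
        refine integral_mono_of_nonneg (Filter.Eventually.of_forall fun α => by positivity) ?_
          (Filter.Eventually.of_forall hpt)
        exact ((continuous_const.mul hcont).integrableOn_Icc (a := 0) (b := B)).mono_set Set.Ioc_subset_Icc_self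
    _ = C₀ * ∑' h : ℤ, ∫ α in Set.Ioc 0 B, ‖c h‖ * ‖T k P (t + h) α‖ ^ 2 := by
        rw [integral_const_mul]
        congr 1
        symm
        apply integral_tsum_of_summable_integral_norm
        · intro h
          exact ((continuous_const.mul ((continuous_T k P _).norm.pow 2)).integrableOn_Icc
            (a := 0) (b := B)).mono_set Set.Ioc_subset_Icc_self
        · refine Summable.of_nonneg_of_le (fun h => integral_nonneg fun α => norm_nonneg _) (fun h => ?_)
            (hc1.mul_right E)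
          have : ∀ α, ‖‖c h‖ * ‖T k P (t + h) α‖ ^ 2‖ = ‖c h‖ * ‖T k P (t + h) α‖ ^ 2 :=
            fun α => Real.norm_of_nonneg (by positivity)
          simp_rw [this]
          rw [integral_const_mul]
          exact mul_le_mul_of_nonneg_left (hint h) (norm_nonneg _)
    _ ≤ C₀ * ∑' h : ℤ, ‖c h‖ * E := by
        refine mul_le_mul_of_nonneg_left ?_ hC₀.le
        have s1 : Summable (fun h : ℤ => ∫ α in Set.Ioc 0 B, ‖c h‖ * ‖T k P (t + h) α‖ ^ 2) := by
          refine Summable.of_nonneg_of_le (fun h => integral_nonneg fun α => by positivity) (fun h => ?_)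
            (hc1.mul_right E)
          rw [integral_const_mul]
          exact mul_le_mul_of_nonneg_left (hint h) (norm_nonneg _)
        refine Summable.tsum_le_tsum (fun h => ?_) s1 (hc1.mul_right E)
        rw [integral_const_mul]
        exact mul_le_mul_of_nonneg_left (hint h) (norm_nonneg _)
    _ ≤ C₀ * (C₀ * E) := by
        rw [tsum_mul_right]
        exact mul_le_mul_of_nonneg_left (mul_le_mul_of_nonneg_right hc2 hE0) hC₀.le
    _ = _ := by rw [hE]; ring

end Pool.Agent.Helper11W
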